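import Pool.Agent.H686R2.Dow.WO

/-! Trees with countable levels, and their branches. -/

set_option autoImplicit false

open Set

namespace Pool.Agent.H686R2.Dow

open WO

variable {W : Type} [LinearOrder W]

/-- `π` is a normal tree on the initial segment `I` of levels: the node `(β, m)` has at the level
`α ≤ β` the predecessor `(α, π α β m)` -/
structure NT (I : Set W) (π : W → W → ℕ → ℕ) : Prop where
  refl : ∀ α ∈ I, ∀ m, π α α m = m
  coh : ∀ α β γ m, α ≤ β → β ≤ γ → γ ∈ I → π α β (π β γ m) = π α γ m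
  inf : ∀ α β n, α < β → β ∈ I → {m | π α β m = n}.Infinite

/-- cofinal branches -/
structure Br (I : Set W) (π : W → W → ℕ → ℕ) (b : W → ℕ) : Prop where
  coh : ∀ α β, α ≤ β → β ∈ I → π α β (b β) = b α
  zero : ∀ α, α ∉ I → b α = 0

theorem NT.mono {I J : Set W} {π : W → W → ℕ → ℕ} (h : NT I π) (hJ : J ⊆ I) : NT J π :=
  ⟨fun α hα => h.refl α (hJ hα), fun α β γ m h1 h2 h3 => h.coh α β γ m h1 h2 (hJ h3),
    fun α β n h1 h2 => h.inf α β n h1 (hJ h2)⟩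

/-- a branch from an increasing sequence of nodes -/
theorem branch_of_seq {π : W → W → ℕ → ℕ} {δ : W} (T : NT (Set.Iio δ) π) (γ : ℕ → W) (n : ℕ → ℕ)
    (hγ : ∀ k, γ k ≤ γ (k + 1)) (hδ : ∀ k, γ k < δ) (hcof : ∀ α < δ, ∃ k, α ≤ γ k)
    (hn : ∀ k, π (γ k) (γ (k + 1)) (n (k + 1)) = n k) :
    ∃ b : W → ℕ, Br (Set.Iio δ) π b ∧ ∀ k, b (γ k) = n k := by
  classical
  have hmono : Monotone γ := monotone_nat_of_le_succ hγ
  have hn' : ∀ k l, k ≤ l → π (γ k) (γ l) (n l) = n k := by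
    intro k l hkl
    induction l, hkl using Nat.le_induction with
    | base => exact T.refl _ (hδ k) _
    | succ l hkl ih =>
      rw [← T.coh _ (γ l) _ _ (hmono hkl) (hγ l) (hδ _), hn l, ih]
  have key : ∀ α k l, k ≤ l → α ≤ γ k → π α (γ l) (n l) = π α (γ k) (n k) := by
    intro α k l hkl hα
    rw [← T.coh α (γ k) (γ l) (n l) hα (hmono hkl) (hδ _), hn' k l hkl]
  have key2 : ∀ α k l, α ≤ γ k → α ≤ γ l → π α (γ l) (n l) = π α (γ k) (n k) := by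
    intro α k l h1 h2
    rcases le_total k l with h | h
    · exact key α k l h h1
    · exact (key α l k h h2).symm
  choose! κ hκ using hcof
  refine ⟨fun α => if α < δ then π α (γ (κ α)) (n (κ α)) else 0, ⟨?_, ?_⟩, ?_⟩
  · intro α β hαβ hβ
    have hβ' : β < δ := hβ
    have hα' : α < δ := hαβ.trans_lt hβ'
    simp only [if_pos hα', if_pos hβ']
    rw [T.coh α β _ _ hαβ (hκ β hβ') (hδ _)]
    exact key2 α (κ α) (κ β) (hκ α hα') (hαβ.trans (hκ β hβ'))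
  · intro α hα
    exact if_neg hα
  · intro k
    simp only [if_pos (hδ k)]
    rw [key2 (γ k) k (κ (γ k)) le_rfl (hκ _ (hδ k))]
    exact T.refl _ (hδ k) _

/-- a branch through a node which differs from countably many given ones -/
theorem exists_branch (hc : ∀ a : W, (Set.Iio a).Countable) {π : W → W → ℕ → ℕ} {δ : W}
    (hL : Lim δ) (T : NT (Set.Iio δ) π) (s : W × ℕ) (hs : s.1 < δ) (B : ℕ → W → ℕ) :
    ∃ b : W → ℕ, Br (Set.Iio δ) π b ∧ b s.1 = s.2 ∧ ∀ k, ∃ α < δ, b α ≠ B k α := by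
  obtain ⟨c, -, hc2⟩ := exists_cof hc δ
  obtain ⟨hc3, hc4⟩ := hc2 hL
  have step : ∀ k : ℕ, ∀ x : W × ℕ, x.1 < δ → ∃ y : W × ℕ, y.1 < δ ∧ x.1 < y.1 ∧ c k ≤ y.1 ∧
      π x.1 y.1 y.2 = x.2 ∧ y.2 ≠ B k y.1 := by
    intro k x hx
    obtain ⟨β, h1, h2⟩ := hL.2 (max x.1 (c k)) (max_lt hx (hc3 k))
    obtain ⟨m, hm1, hm2⟩ := (T.inf x.1 β x.2 ((le_max_left _ _).trans_lt h1) h2).exists_notMem_finite
      (Set.finite_singleton (B k β))
    exact ⟨(β, m), h2, (le_max_left _ _).trans_lt h1, (le_max_right _ _).trans h1.le, hm1, hm2⟩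
  choose f hf using step
  let u : ℕ → {x : W × ℕ // x.1 < δ} := fun n => Nat.rec ⟨s, hs⟩
    (fun k x => ⟨f k x.1 x.2, (hf k x.1 x.2).1⟩) n
  have hu : ∀ k, (u (k + 1)).1 = f k (u k).1 (u k).2 := fun k => rfl
  obtain ⟨b, hb1, hb2⟩ := branch_of_seq T (fun k => (u k).1.1) (fun k => (u k).1.2)
    (fun k => by
      show (u k).1.1 ≤ (u (k + 1)).1.1
      rw [hu]; exact (hf k _ _).2.1.le) (fun k => (u k).2) (by
      intro α hα
      obtain ⟨k, hk⟩ := hc4 α hα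
      refine ⟨k + 1, hk.trans ?_⟩
      show c k ≤ (u (k + 1)).1.1
      rw [hu]; exact (hf k _ _).2.2.1) (fun k => by
      show π (u k).1.1 (u (k + 1)).1.1 (u (k + 1)).1.2 = (u k).1.2
      rw [hu]; exact (hf k _ _).2.2.2.1)
  refine ⟨b, hb1, hb2 0, fun k => ⟨(u (k + 1)).1.1, (u (k + 1)).2, ?_⟩⟩
  have h : b (u (k + 1)).1.1 = (u (k + 1)).1.2 := hb2 (k + 1)
  rw [h, hu]
  exact (hf k _ _).2.2.2.2

/-- a system of distinct new branches -/
theorem exists_branches (hc : ∀ a : W, (Set.Iio a).Countable) {π : W → W → ℕ → ℕ} {δ : W}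
    (hL : Lim δ) (T : NT (Set.Iio δ) π) (N : ℕ → W → ℕ) (s : ℕ → W × ℕ) (hs : ∀ t, (s t).1 < δ) :
    ∃ F : ℕ → W → ℕ, (∀ t, Br (Set.Iio δ) π (F t)) ∧ (∀ t, F t (s t).1 = (s t).2) ∧
      (∀ t j, ∃ α < δ, F t α ≠ N j α) ∧ (∀ t t', t ≠ t' → ∃ α < δ, F t α ≠ F t' α) := by
  obtain ⟨F, hF1, hF2⟩ := sdr (fun t => {b : W → ℕ | Br (Set.Iio δ) π b ∧ b (s t).1 = (s t).2 ∧
    ∀ j, ∃ α < δ, b α ≠ N j α}) (by
      intro t hfin
      have h1 : ({b : W → ℕ | Br (Set.Iio δ) π b ∧ b (s t).1 = (s t).2 ∧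
        ∀ j, ∃ α < δ, b α ≠ N j α} ∪ Set.range N).Countable :=
        hfin.countable.union (Set.countable_range N)
      obtain ⟨B, hB⟩ := h1.exists_eq_range ⟨N 0, Or.inr ⟨0, rfl⟩⟩
      obtain ⟨b, hb1, hb2, hb3⟩ := exists_branch hc hL T (s t) (hs t) B
      have h2 : b ∈ {b : W → ℕ | Br (Set.Iio δ) π b ∧ b (s t).1 = (s t).2 ∧
          ∀ j, ∃ α < δ, b α ≠ N j α} := by
        refine ⟨hb1, hb2, fun j => ?_⟩
        have h3 : N j ∈ Set.range B := by rw [← hB]; exact Or.inr ⟨j, rfl⟩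
        obtain ⟨k, hk⟩ := h3
        rw [← hk]
        exact hb3 k
      have h3 : b ∈ Set.range B := by rw [← hB]; exact Or.inl h2
      obtain ⟨k, hk⟩ := h3
      obtain ⟨α, -, hα⟩ := hb3 k
      exact hα (by rw [hk]))
  refine ⟨F, fun t => (hF1 t).1, fun t => (hF1 t).2.1, fun t => (hF1 t).2.2, fun t t' htt' => ?_⟩
  by_contra hcon
  push Not at hcon
  apply htt'
  apply hF2
  funext α
  by_cases hα : α < δ
  · exact hcon α hα
  · rw [(hF1 t).1.zero α hα, (hF1 t').1.zero α hα]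

end Pool.Agent.H686R2.Dow
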