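import Pool.Agent.H686R2.Dow.Meas
import Pool.Agent.Helper220.ForceCH

/-! The product of a `σ`-closed forcing with a measure algebra. -/

set_option autoImplicit false
set_option linter.unusedSectionVars false

open MeasureTheory Set
open scoped ENNReal

namespace Pool.Agent.H686R2.Dow.Exh

open Meas Pool.Agent.Helper220.ForceCH

section

variable {R : Type} [Preorder R]

/-- monotone functions stabilize -/
theorem const (hR : SigmaClosed R) (f : R → ℝ≥0∞) (hf : ∀ r r', r' ≤ r → f r ≤ f r') (r0 : R) :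
    ∃ r ≤ r0, ∀ r' ≤ r, f r' = f r := by
  obtain ⟨r, hr, h⟩ := meet_countable hR
    (fun n => {r | (((Denumerable.ofNat ℚ n : ℝ).toNNReal : ℝ≥0∞) < f r) ∨
      ∀ r' ≤ r, ¬ (((Denumerable.ofNat ℚ n : ℝ).toNNReal : ℝ≥0∞) < f r')}) (by
      intro n r hr r' hr'
      rcases hr with h | h
      · exact Or.inl (h.trans_le (hf _ _ hr'))
      · exact Or.inr fun r'' hr'' => h r'' (hr''.trans hr')) r0 (by
      intro n r _
      by_cases h : ∀ r' ≤ r, ¬ (((Denumerable.ofNat ℚ n : ℝ).toNNReal : ℝ≥0∞) < f r')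
      · exact ⟨r, le_rfl, Or.inr h⟩
      · push Not at h
        obtain ⟨r', hr', h'⟩ := h
        exact ⟨r', hr', Or.inl h'⟩)
  refine ⟨r, hr, fun r' hr' => le_antisymm ?_ (hf _ _ hr')⟩
  by_contra hlt
  obtain ⟨q, -, h1, h2⟩ := ENNReal.lt_iff_exists_rat_btwn.1 (not_le.1 hlt)
  obtain ⟨n, hn⟩ : ∃ n, Denumerable.ofNat ℚ n = q :=
    ⟨@Encodable.encode ℚ Denumerable.toEncodable q, Denumerable.ofNat_encode q⟩
  have h3 := h n
  rw [hn] at h3
  rcases h3 with h3 | h3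
  · exact lt_asymm h1 h3
  · exact h3 r' hr' h2

variable {Ω : Type} [MeasurableSpace Ω] {μ : Measure Ω} [IsFiniteMeasure μ]

/-- the exhaustion lemma -/
theorem exh (hR : SigmaClosed R) (D : Set (R × Pos μ)) (hD : Down D) (r0 : R) (q0 : Pos μ)
    (hd : ∀ x ≤ (r0, q0), ∃ y ≤ x, y ∈ D) : ∃ r ≤ r0, ∀ q ≤ q0, ∃ q' ≤ q, (r, q') ∈ D := by
  classical
  let E : R → Set (Set Ω) := fun r =>
    {e | MeasurableSet e ∧ e ⊆ q0.1 ∧ ∀ q : Pos μ, q.1 ⊆ e → ∃ q' ≤ q, (r, q') ∈ D}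
  have hEmono : ∀ r r', r' ≤ r → E r ⊆ E r' := by
    rintro r r' h e ⟨h1, h2, h3⟩
    refine ⟨h1, h2, fun q hq => ?_⟩
    obtain ⟨q', hq', h4⟩ := h3 q hq
    exact ⟨q', hq', hD _ h4 _ ⟨h, le_rfl⟩⟩
  obtain ⟨r, hr, hconst⟩ := const hR (fun r => sSup (μ '' E r))
    (fun r r' h => sSup_le_sSup (Set.image_mono (hEmono r r' h))) r0
  obtain ⟨B, hB, hmax⟩ := ess_sup μ (E r) (fun e he => he.1) ⟨MeasurableSet.empty, Set.empty_subset _,
    fun q hq => by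
      exfalso
      apply q.2.2
      rw [Set.subset_empty_iff.1 hq, measure_empty]⟩ (by
    intro u hu
    refine ⟨MeasurableSet.iUnion fun n => (hu n).1, Set.iUnion_subset fun n => (hu n).2.1,
      fun q hq => ?_⟩
    obtain ⟨n, s, hs1, hs2⟩ := exists_pos_inter (fun n => (hu n).1) q hq
    obtain ⟨q', hq', h4⟩ := (hu n).2.2 s hs2
    exact ⟨q', hq'.trans hs1, h4⟩)
  have hsup : sSup (μ '' E r) ≤ μ B := by
    refine sSup_le ?_
    rintro _ ⟨e, he, rfl⟩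
    calc μ e ≤ μ (B ∪ (e \ B)) := measure_mono (by
          rw [Set.union_sdiff_self]; exact Set.subset_union_right)
      _ ≤ μ B + μ (e \ B) := measure_union_le _ _
      _ = μ B := by rw [hmax e he, add_zero]
  refine ⟨r, hr, ?_⟩
  by_contra hcon
  push Not at hcon
  obtain ⟨q, hq, hno⟩ := hcon
  have hpos : μ (q.1 \ B) ≠ 0 := by
    intro h0
    have h1 : μ (q.1 ∩ B) ≠ 0 := by
      intro h2
      apply q.2.2
      have : q.1 = (q.1 ∩ B) ∪ (q.1 \ B) := (Set.inter_union_sdiff q.1 B).symm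
      rw [this]
      exact measure_union_null h2 h0
    obtain ⟨q', hq', h3⟩ := hB.2.2 ⟨q.1 ∩ B, q.2.1.inter hB.1, h1⟩ Set.inter_subset_right
    exact hno q' (hq'.trans Set.inter_subset_left) h3
  let q1 : Pos μ := ⟨q.1 \ B, q.2.1.diff hB.1, hpos⟩
  have hq1 : q1 ≤ q := Set.sdiff_subset
  obtain ⟨⟨r', q'⟩, hy1, hy2⟩ := hd (r, q1) ⟨hr, hq1.trans hq⟩
  have hq'1 : q'.1 ⊆ q1.1 := hy1.2
  have hmem : B ∪ q'.1 ∈ E r' := by
    refine ⟨hB.1.union q'.2.1, Set.union_subset hB.2.1 (hq'1.trans (hq1.trans hq)), fun s hs => ?_⟩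
    by_cases h1 : μ (s.1 ∩ B) = 0
    · have h2 : μ (s.1 ∩ q'.1) ≠ 0 := by
        intro h2
        apply s.2.2
        have : s.1 = (s.1 ∩ B) ∪ (s.1 ∩ q'.1) := by
          rw [← Set.inter_union_distrib_left, Set.inter_eq_left.2 hs]
        rw [this]
        exact measure_union_null h1 h2
      exact ⟨⟨s.1 ∩ q'.1, s.2.1.inter q'.2.1, h2⟩, Set.inter_subset_left,
        hD _ hy2 _ ⟨le_rfl, Set.inter_subset_right⟩⟩
    · obtain ⟨t, ht, h3⟩ := hB.2.2 ⟨s.1 ∩ B, s.2.1.inter hB.1, h1⟩ Set.inter_subset_right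
      exact ⟨t, ht.trans Set.inter_subset_left, hD _ h3 _ ⟨hy1.1, le_rfl⟩⟩
  have h5 : μ (B ∪ q'.1) ≤ μ B := by
    have h6 : μ (B ∪ q'.1) ≤ sSup (μ '' E r') := le_sSup (Set.mem_image_of_mem μ hmem)
    rw [hconst r' hy1.1] at h6
    exact h6.trans hsup
  have hdis : Disjoint B q'.1 := by
    rw [Set.disjoint_left]
    intro x hx hx'
    exact (hq'1 hx').2 hx
  rw [measure_union hdis q'.2.1] at h5
  exact absurd h5 (not_le.2 (ENNReal.lt_add_right (measure_ne_top μ _) q'.2.2))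

end

section

variable {P : Type} [Preorder P] {Ω : Type} [MeasurableSpace Ω] {μ : Measure Ω} [IsFiniteMeasure μ]

/-- countably many requirements -/
theorem dec (hP : SigmaClosed P) (φ : ℕ → Set (P × Pos μ)) (hφ : ∀ n, Down (φ n)) (p0 : P)
    (q0 : Pos μ) (hd : ∀ n, ∀ x ≤ (p0, q0), ∃ y ≤ x, y ∈ φ n) :
    ∃ p ≤ p0, ∀ n, ∀ q ≤ q0, ∃ q' ≤ q, (p, q') ∈ φ n := by
  refine meet_countable hP (fun n => {p | ∀ q ≤ q0, ∃ q' ≤ q, (p, q') ∈ φ n}) ?_ p0 ?_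
  · intro n p hp p' hp' q hq
    obtain ⟨q', hq', h⟩ := hp q hq
    exact ⟨q', hq', hφ n _ h _ ⟨hp', le_rfl⟩⟩
  · intro n r hr
    exact exh hP (φ n) (hφ n) r q0 (fun x hx => hd n x ⟨hx.1.trans hr, hx.2⟩)

/-- `ω₁` is preserved -/
theorem omega (hP : SigmaClosed P) (x : P × Pos μ) : x ∈ OmegaOnePreserved (P × Pos μ) := by
  classical
  intro y _ hy
  obtain ⟨⟨p0, q0⟩, _, R, hR, hR'⟩ := mem_fex.1 hy y le_rfl
  obtain ⟨p, hp, h⟩ := dec hP (fun n => {t | ∃ a, t ∈ meets (R n a)})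
    (fun n t ⟨a, ha⟩ t' ht' => ⟨a, down_meets _ _ ha _ ht'⟩) p0 q0 (by
      intro n t ht
      obtain ⟨t', ht', a, ha⟩ := mem_fex.1 (hR.1 n) t ht
      exact ⟨t', ht', a, ha⟩)
  have hV : ∀ n, {a : Om | ∃ q ≤ q0, (p, q) ∈ meets (R n a)}.Countable := by
    intro n
    let qf : Om → Pos μ := fun a => if h : ∃ q ≤ q0, (p, q) ∈ meets (R n a) then h.choose else q0
    refine ccc _ qf ?_
    intro a ha b hb hab
    by_contra hne
    have h1 : qf a = ha.choose := dif_pos ha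
    have h2 : qf b = hb.choose := dif_pos hb
    let s : Pos μ := ⟨(qf a).1 ∩ (qf b).1, (qf a).2.1.inter (qf b).2.1, hne⟩
    have h3 : (p, s) ∈ meets (R n a) := by
      refine down_meets _ _ ha.choose_spec.2 _ ⟨le_rfl, ?_⟩
      show s.1 ⊆ ha.choose.1
      rw [← h1]; exact Set.inter_subset_left
    have h4 : (p, s) ∈ meets (R n b) := by
      refine down_meets _ _ hb.choose_spec.2 _ ⟨le_rfl, ?_⟩
      show s.1 ⊆ hb.choose.1
      rw [← h2]; exact Set.inter_subset_right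
    have h5 : s ≤ q0 := by
      have : s.1 ⊆ ha.choose.1 := by rw [← h1]; exact Set.inter_subset_left
      exact this.trans ha.choose_spec.1
    obtain ⟨t, _, h6⟩ := mem_fimp.1 (hR.2 n a b) (p, s) ⟨hp, h5⟩ ⟨h3, h4⟩
    exact hab h6
  have hVc : (⋃ n, {a : Om | ∃ q ≤ q0, (p, q) ∈ meets (R n a)}).Countable :=
    Set.countable_iUnion hV
  obtain ⟨b, hb⟩ : ∃ b : Om, ∀ a ∈ (⋃ n, {a : Om | ∃ q ≤ q0, (p, q) ∈ meets (R n a)}), a < b := by
    rcases Set.eq_empty_or_nonempty (⋃ n, {a : Om | ∃ q ≤ q0, (p, q) ∈ meets (R n a)}) with h0 | h0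
    · rw [h0]
      exact ⟨Classical.arbitrary Om, fun a ha => absurd ha (Set.notMem_empty a)⟩
    · obtain ⟨f, hf⟩ := hVc.exists_eq_range h0
      obtain ⟨b, hb⟩ := exists_bound f
      refine ⟨b, fun a ha => ?_⟩
      rw [hf] at ha
      obtain ⟨n, rfl⟩ := ha
      exact hb n
  obtain ⟨⟨p', q'⟩, ht, n, hn⟩ := mem_fex.1 (hR' b) (p, q0) ⟨hp, le_rfl⟩
  obtain ⟨q'', hq'', a, ha⟩ := h n q' ht.2
  have ha' : a < b := hb a (Set.mem_iUnion.2 ⟨n, q'', hq''.trans ht.2, ha⟩)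
  obtain ⟨t, _, h6⟩ := mem_fimp.1 (hR.2 n a b) (p', q'') ⟨ht.1.trans hp, hq''.trans ht.2⟩
    ⟨down_meets _ _ ha _ ⟨ht.1, le_rfl⟩, down_meets _ _ hn _ ⟨le_rfl, hq''⟩⟩
  exact ha'.ne h6

end

end Pool.Agent.H686R2.Dow.Exh
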