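import Pool.Agent.H686R2.Dow.Branch
import Pool.Agent.Helper220.ForceCH

/-! The forcing which adds a Souslin tree with countable conditions. -/

set_option autoImplicit false

open Set

namespace Pool.Agent.H686R2.Dow.JT

open WO Pool.Agent.Helper220.ForceCH

theorem hc : ∀ a : Om, (Set.Iio a).Countable := fun a =>
  Set.countable_coe_iff.1 (countable_Iio a)

theorem hu : ¬ (Set.univ : Set Om).Countable := by
  intro h
  obtain ⟨f, hf⟩ := h.exists_eq_range ⟨Classical.arbitrary Om, trivial⟩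
  obtain ⟨b, hb⟩ := exists_bound f
  have : b ∈ Set.range f := by rw [← hf]; trivial
  obtain ⟨n, hn⟩ := this
  exact absurd (hb n) (by rw [hn]; exact lt_irrefl _)

/-- conditions: trees of countable successor height -/
structure TC : Type where
  /-- the last level -/
  δ : Om
  /-- the projections -/
  π : Om → Om → ℕ → ℕ
  nt : NT (Set.Iic δ) π

instance : Preorder TC where
  le q p := p.δ ≤ q.δ ∧ ∀ α β m, α ≤ β → β ≤ p.δ → q.π α β m = p.π α β m
  le_refl p := ⟨le_rfl, fun _ _ _ _ _ => rfl⟩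
  le_trans _ _ _ h h' := ⟨h'.1.trans h.1, fun α β m h1 h2 =>
    (h.2 α β m h1 (h2.trans h'.1)).trans (h'.2 α β m h1 h2)⟩

theorem le_def {q p : TC} : q ≤ p ↔ p.δ ≤ q.δ ∧ ∀ α β m, α ≤ β → β ≤ p.δ →
    q.π α β m = p.π α β m := Iff.rfl

instance : Nonempty TC := by
  obtain ⟨a⟩ : Nonempty Om := inferInstance
  have hne : (Set.univ : Set Om).Nonempty := ⟨a, trivial⟩
  refine ⟨⟨WellFounded.min (wellFounded_lt (α := Om)) Set.univ hne, fun _ _ m => m, ?_, ?_, ?_⟩⟩
  · intro _ _ _; rfl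
  · intro _ _ _ _ _ _ _; rfl
  · intro α β n h1 h2
    exact absurd (h1.trans_le h2) (WellFounded.not_lt_min (wellFounded_lt (α := Om)) (s := Set.univ)
      trivial)

/-- the nodes on the last level -/
def TN : Type := TC × ℕ

instance : Preorder TN where
  le b a := b.1 ≤ a.1 ∧ b.1.π a.1.δ b.1.δ b.2 = a.2
  le_refl a := ⟨le_rfl, a.1.nt.refl _ (Set.mem_Iic.2 le_rfl) _⟩
  le_trans c b a h h' := by
    refine ⟨h.1.trans h'.1, ?_⟩
    rw [← c.1.nt.coh a.1.δ b.1.δ c.1.δ c.2 h'.1.1 h.1.1 (Set.mem_Iic.2 le_rfl), h.2,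
      h.1.2 _ _ _ h'.1.1 le_rfl, h'.2]

theorem tn_le {b a : TN} : b ≤ a ↔ b.1 ≤ a.1 ∧ b.1.π a.1.δ b.1.δ b.2 = a.2 := Iff.rfl

/-- every node has a successor on the last level -/
theorem exists_top (p : TC) {α : Om} (hα : α ≤ p.δ) (n : ℕ) : ∃ m, p.π α p.δ m = n := by
  rcases hα.lt_or_eq with h | h
  · obtain ⟨m, hm⟩ := (p.nt.inf α p.δ n h (Set.mem_Iic.2 le_rfl)).nonempty
    exact ⟨m, hm⟩
  · refine ⟨n, ?_⟩
    rw [h]
    exact p.nt.refl _ (Set.mem_Iic.2 le_rfl) _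

/-- every node on the last level of `a` has a successor on the last level of an extension -/
theorem exists_tn (a : TN) {p : TC} (hp : p ≤ a.1) : ∃ b : TN, b ≤ a ∧ b.1 = p := by
  obtain ⟨m, hm⟩ := exists_top p hp.1 a.2
  exact ⟨(p, m), ⟨hp, hm⟩, rfl⟩

/-- the union of a decreasing sequence -/
theorem glue (p : ℕ → TC) (hp : ∀ n, p (n + 1) ≤ p n) (δ : Om)
    (hcof : ∀ α < δ, ∃ n, α ≤ (p n).δ) :
    ∃ π : Om → Om → ℕ → ℕ, NT (Set.Iio δ) π ∧
      ∀ n α β m, α ≤ β → β ≤ (p n).δ → β < δ → π α β m = (p n).π α β m := by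
  classical
  have hanti : ∀ k l, k ≤ l → p l ≤ p k := by
    intro k l h
    induction l, h using Nat.le_induction with
    | base => exact le_rfl
    | succ l _ ih => exact (hp l).trans ih
  choose! κ hκ using hcof
  have agree : ∀ n n' α β m, α ≤ β → β ≤ (p n).δ → β ≤ (p n').δ →
      (p n).π α β m = (p n').π α β m := by
    intro n n' α β m h1 h2 h3
    rcases le_total n n' with h | h
    · exact ((hanti n n' h).2 α β m h1 h2).symm
    · exact (hanti n' n h).2 α β m h1 h3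
  have key : ∀ n α β m, α ≤ β → β ≤ (p n).δ → β < δ → (p (κ β)).π α β m = (p n).π α β m :=
    fun n α β m h1 h2 h3 => agree _ _ _ _ _ h1 (hκ β h3) h2
  refine ⟨fun α β m => (p (κ β)).π α β m, ⟨?_, ?_, ?_⟩, key⟩
  · intro α hα m
    exact (p (κ α)).nt.refl α (Set.mem_Iic.2 (hκ α hα)) m
  · intro α β γ m h1 h2 h3
    have h3' : γ < δ := h3
    have h4 : β ≤ (p (κ γ)).δ := h2.trans (hκ γ h3')
    show (p (κ β)).π α β ((p (κ γ)).π β γ m) = (p (κ γ)).π α γ m
    rw [key (κ γ) α β _ h1 h4 (h2.trans_lt h3')]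
    exact (p (κ γ)).nt.coh α β γ m h1 h2 (Set.mem_Iic.2 (hκ γ h3'))
  · intro α β n h1 h2
    exact (p (κ β)).nt.inf α β n h1 (Set.mem_Iic.2 (hκ β h2))

/-- adding a last level -/
theorem addTop {π : Om → Om → ℕ → ℕ} {δ : Om} (T : NT (Set.Iio δ) π) (F : ℕ → Om → ℕ)
    (hF : ∀ t, ∀ α β, α ≤ β → β < δ → π α β (F t β) = F t α)
    (hinf : ∀ α < δ, ∀ n, {t | F t α = n}.Infinite) :
    ∃ q : TC, q.δ = δ ∧ (∀ α β m, α ≤ β → β < δ → q.π α β m = π α β m) ∧
      ∀ α < δ, ∀ t, q.π α δ t = F t α := by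
  classical
  let π' : Om → Om → ℕ → ℕ := fun α β m => if β < δ then π α β m else if α < δ then F m α else m
  have h1 : ∀ α β m, β < δ → π' α β m = π α β m := fun α β m h => if_pos h
  have h2 : ∀ α m, α < δ → π' α δ m = F m α := fun α m h => by
    show (if δ < δ then π α δ m else if α < δ then F m α else m) = F m α
    rw [if_neg (lt_irrefl δ), if_pos h]
  have h3 : ∀ m, π' δ δ m = m := fun m => by
    show (if δ < δ then π δ δ m else if δ < δ then F m δ else m) = m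
    rw [if_neg (lt_irrefl δ), if_neg (lt_irrefl δ)]
  refine ⟨⟨δ, π', ⟨?_, ?_, ?_⟩⟩, rfl, fun α β m _ h => h1 α β m h, fun α hα t => h2 α t hα⟩
  · intro α hα m
    rcases (Set.mem_Iic.1 hα).lt_or_eq with h | h
    · rw [h1 α α m h]; exact T.refl α h m
    · rw [h]; exact h3 m
  · intro α β γ m hαβ hβγ hγ
    rcases (Set.mem_Iic.1 hγ).lt_or_eq with h | h
    · rw [h1 _ _ _ h, h1 _ _ _ h, h1 _ _ _ (hβγ.trans_lt h)]
      exact T.coh α β γ m hαβ hβγ h
    · subst h
      rcases hβγ.lt_or_eq with h | h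
      · rw [h2 β m h, h1 _ _ _ h, h2 α m (hαβ.trans_lt h)]
        exact hF m α β hαβ h
      · rw [h, h3]
  · intro α β n hαβ hβ
    rcases (Set.mem_Iic.1 hβ).lt_or_eq with h | h
    · have : {m | π' α β m = n} = {m | π α β m = n} := by
        ext m
        simp only [Set.mem_ofPred_eq]
        rw [h1 α β m h]
      rw [this]; exact T.inf α β n hαβ h
    · subst h
      have : {m | π' α β m = n} = {m | F m α = n} := by
        ext m
        simp only [Set.mem_ofPred_eq]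
        rw [h2 α m hαβ]
      rw [this]; exact hinf α hαβ n

/-- limits of decreasing sequences, with prescribed branches -/
theorem limit (p : ℕ → TC) (hp : ∀ n, p (n + 1) ≤ p n) {δ : Om} (hδ : ∀ n, (p n).δ < δ)
    {π : Om → Om → ℕ → ℕ} (T : NT (Set.Iio δ) π)
    (hπ : ∀ n α β m, α ≤ β → β ≤ (p n).δ → β < δ → π α β m = (p n).π α β m)
    (F : ℕ → Om → ℕ)
    (hF : ∀ t, ∀ α β, α ≤ β → β < δ → π α β (F t β) = F t α)
    (hinf : ∀ α < δ, ∀ n, {t | F t α = n}.Infinite) :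
    ∃ q : TC, q.δ = δ ∧ (∀ n, q ≤ p n) ∧ ∀ α < δ, ∀ t, q.π α δ t = F t α := by
  obtain ⟨q, hq1, hq2, hq3⟩ := addTop T F hF hinf
  refine ⟨q, hq1, fun n => ⟨by rw [hq1]; exact (hδ n).le, fun α β m h1 h2 => ?_⟩, hq3⟩
  rw [hq2 α β m h1 (h2.trans_lt (hδ n)), hπ n α β m h1 h2 (h2.trans_lt (hδ n))]

/-- enumeration of the nodes below a limit level -/
theorem exists_enum {δ : Om} (hδ : ∃ α, α < δ) : ∃ g : ℕ → Om × ℕ, (∀ k, (g k).1 < δ) ∧
    ∀ x : Om × ℕ, x.1 < δ → ∃ k, g k = x := by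
  obtain ⟨α, hα⟩ := hδ
  obtain ⟨z, hz⟩ := (countable_lt hc δ).exists_eq_range ⟨(α, 0), hα⟩
  refine ⟨z, fun k => ?_, fun x hx => ?_⟩
  · have : z k ∈ {y : Om × ℕ | y.1 < δ} := by rw [hz]; exact ⟨k, rfl⟩
    exact this
  · have : x ∈ Set.range z := by rw [← hz]; exact hx
    exact this

theorem tn_sigmaClosed : SigmaClosed TN := by
  intro s hs
  have hp : ∀ n, (s (n + 1)).1 ≤ (s n).1 := fun n => (hs n).1
  have hanti : ∀ k l, k ≤ l → s l ≤ s k := by
    intro k l h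
    induction l, h using Nat.le_induction with
    | base => exact le_rfl
    | succ l _ ih => exact (hs l).trans ih
  obtain ⟨δ, hδ1, hδ2⟩ := exists_sup hc hu (fun n => (s n).1.δ)
  by_cases hL : ∃ N, ∀ n, (s n).1.δ ≤ (s N).1.δ
  · obtain ⟨N, hN⟩ := hL
    refine ⟨s N, fun n => ?_⟩
    rcases le_total n N with h | h
    · exact hanti n N h
    · obtain ⟨h1, h2⟩ := hanti N n h
      have h3 : (s n).1.δ = (s N).1.δ := le_antisymm (hN n) h1.1
      refine ⟨⟨h3.le, fun α β m h4 h5 => (h1.2 α β m h4 (h5.trans h3.le)).symm⟩, ?_⟩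
      rw [h3] at h2 ⊢
      rw [(s N).1.nt.refl _ (Set.mem_Iic.2 le_rfl), ← h2, ← h3]
      rw [(s n).1.nt.refl _ (Set.mem_Iic.2 le_rfl)]
  · push Not at hL
    have hlim : Lim δ := by
      refine ⟨⟨_, hδ1 0⟩, fun α hα => ?_⟩
      obtain ⟨n, hn⟩ := hδ2 α hα
      obtain ⟨m, hm⟩ := hL n
      exact ⟨(s m).1.δ, hn.trans_lt hm, hδ1 m⟩
    obtain ⟨π, T, hπ⟩ := glue (fun n => (s n).1) hp δ hδ2
    obtain ⟨b, hb1, hb2⟩ := branch_of_seq T (fun n => (s n).1.δ) (fun n => (s n).2)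
      (fun k => (hp k).1) hδ1 hδ2 (fun k => by
        rw [hπ (k + 1) _ _ _ (hp k).1 le_rfl (hδ1 (k + 1))]
        exact (hs k).2)
    obtain ⟨g, hg1, hg2⟩ := exists_enum hlim.1
    have hbr := fun x : {x : Om × ℕ // x.1 < δ} => exists_branch hc hlim T x.1 x.2 (fun _ _ => 0)
    choose G hG1 hG2 _ using hbr
    obtain ⟨q, hq1, hq2, hq3⟩ := limit (fun n => (s n).1) hp hδ1 T hπ
      (fun t => match t with
        | 0 => b
        | t + 1 => G ⟨g t.unpair.1, hg1 _⟩) (by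
        intro t α β h1 h2
        cases t with
        | zero => exact hb1.coh α β h1 h2
        | succ t => exact (hG1 _).coh α β h1 h2) (by
        intro α hα n
        obtain ⟨j, hj⟩ := hg2 (α, n) hα
        refine Set.infinite_of_injective_forall_mem (f := fun i : ℕ => Nat.pair j i + 1) ?_ ?_
        · intro i i' h
          exact (Nat.pair_eq_pair.1 (Nat.succ_injective h)).2
        · intro i
          show G ⟨g (Nat.pair j i).unpair.1, hg1 _⟩ α = n
          have h1 := hG2 ⟨g (Nat.pair j i).unpair.1, hg1 _⟩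
          have h2 : g (Nat.pair j i).unpair.1 = (α, n) := by rw [Nat.unpair_pair]; exact hj
          simp only [h2] at h1 ⊢
          exact h1)
    refine ⟨(q, 0), fun n => ⟨hq2 n, ?_⟩⟩
    show q.π (s n).1.δ q.δ 0 = (s n).2
    rw [hq1, hq3 _ (hδ1 n) 0]
    exact hb2 n

theorem tc_sigmaClosed : SigmaClosed TC := by
  intro s hs
  have step : ∀ n (m : ℕ), ∃ m', (s (n + 1)).π (s n).δ (s (n + 1)).δ m' = m := fun n m =>
    exists_top (s (n + 1)) (hs n).1 m
  choose f hf using step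
  let m : ℕ → ℕ := fun n => Nat.rec 0 (fun k x => f k x) n
  have hm : ∀ n, m (n + 1) = f n (m n) := fun _ => rfl
  obtain ⟨q, hq⟩ := tn_sigmaClosed (fun n => (s n, m n)) (fun n => ⟨hs n, by
    show (s (n + 1)).π (s n).δ (s (n + 1)).δ (m (n + 1)) = m n
    rw [hm]; exact hf n (m n)⟩)
  exact ⟨q.1, fun n => (hq n).1⟩

/-- one more level -/
theorem exists_succ (p : TC) : ∃ q ≤ p, p.δ < q.δ := by
  have hne : ({a : Om | p.δ < a}).Nonempty := by
    obtain ⟨b, hb⟩ := exists_bound fun _ => p.δ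
    exact ⟨b, hb 0⟩
  set δ := WellFounded.min (wellFounded_lt (α := Om)) {a : Om | p.δ < a} hne with hδ
  have h1 : p.δ < δ := WellFounded.min_mem (wellFounded_lt (α := Om)) _ hne
  have h2 : ∀ α < δ, α ≤ p.δ := by
    intro α hα
    by_contra h
    exact WellFounded.not_lt_min (wellFounded_lt (α := Om)) (s := {a : Om | p.δ < a})
      (not_le.1 h) hα
  obtain ⟨q, hq1, hq2, -⟩ := addTop (δ := δ) (π := p.π) (p.nt.mono (fun α hα => h2 α hα))
    (fun t α => p.π α p.δ t.unpair.1) (by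
      intro t α β hαβ hβ
      exact p.nt.coh α β p.δ _ hαβ (h2 β hβ) (Set.mem_Iic.2 le_rfl)) (by
      intro α hα n
      obtain ⟨m, hm⟩ := exists_top p (h2 α hα) n
      refine Set.infinite_of_injective_forall_mem (f := fun i : ℕ => Nat.pair m i) ?_ ?_
      · intro i i' h
        exact (Nat.pair_eq_pair.1 h).2
      · intro i
        show p.π α p.δ (Nat.pair m i).unpair.1 = n
        rw [Nat.unpair_pair]; exact hm)
  refine ⟨q, ⟨by rw [hq1]; exact h1.le, fun α β m h3 h4 => hq2 α β m h3 (h4.trans_lt h1)⟩, ?_⟩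
  rw [hq1]; exact h1

/-- arbitrary heights -/
theorem exists_height (γ : Om) : ∀ p : TC, ∃ q ≤ p, γ ≤ q.δ := by
  refine (wellFounded_lt (α := Om)).induction (C := fun γ => ∀ p : TC, ∃ q ≤ p, γ ≤ q.δ) γ ?_
  intro γ ih p
  rcases Set.eq_empty_or_nonempty (Set.Iio γ) with h0 | h0
  · refine ⟨p, le_rfl, ?_⟩
    by_contra h
    have : p.δ ∈ Set.Iio γ := not_le.1 h
    rw [h0] at this
    exact this
  · obtain ⟨z, hz⟩ := (hc γ).exists_eq_range h0
    obtain ⟨q, hq, h1⟩ := meet_countable tc_sigmaClosed (fun n => {q | z n ≤ q.δ})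
      (fun n q hq q' hq' => le_trans (α := Om) hq hq'.1) p (by
        intro n r _
        have : z n ∈ Set.Iio γ := by rw [hz]; exact ⟨n, rfl⟩
        exact ih (z n) this r)
    obtain ⟨q', hq', h2⟩ := exists_succ q
    refine ⟨q', hq'.trans hq, ?_⟩
    by_contra h
    have h3 : q'.δ ∈ Set.range z := by rw [← hz]; exact not_le.1 h
    obtain ⟨n, hn⟩ := h3
    have h4 : z n ≤ q.δ := h1 n
    rw [hn] at h4
    exact absurd h2 (not_lt.2 h4)

end Pool.Agent.H686R2.Dow.JT
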