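import Mathlib

/-! Measure theoretic facts for random forcing. -/

set_option autoImplicit false
set_option linter.unusedSectionVars false

open MeasureTheory ProbabilityTheory Set
open scoped ENNReal

namespace Pool.Agent.H686R2.Dow.Meas

section

variable {Ω : Type} [MeasurableSpace Ω] (μ : Measure Ω) [IsFiniteMeasure μ]

/-- a family of measurable sets closed under countable unions has an essentially largest member -/
theorem ess_sup (E : Set (Set Ω)) (hm : ∀ e ∈ E, MeasurableSet e) (h0 : ∅ ∈ E)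
    (hU : ∀ u : ℕ → Set Ω, (∀ n, u n ∈ E) → (⋃ n, u n) ∈ E) :
    ∃ B ∈ E, ∀ e ∈ E, μ (e \ B) = 0 := by
  obtain ⟨u, -, hu2, hu3⟩ := exists_seq_tendsto_sSup (S := μ '' E) ⟨μ ∅, ∅, h0, rfl⟩
    (OrderTop.bddAbove _)
  choose v hv1 hv2 using hu3
  have hB : (⋃ n, v n) ∈ E := hU v hv1
  have hsup : sSup (μ '' E) ≤ μ (⋃ n, v n) := le_of_tendsto' hu2 (fun n => by
    rw [← hv2 n]; exact measure_mono (subset_iUnion v n))
  refine ⟨⋃ n, v n, hB, fun e he => ?_⟩
  have h1 : (⋃ n, v n) ∪ e ∈ E := by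
    have h := hU (fun n => if n = 0 then ⋃ n, v n else e) (by
      intro n
      split_ifs
      · exact hB
      · exact he)
    have h2 : (⋃ n : ℕ, (if n = 0 then ⋃ n, v n else e)) = (⋃ n, v n) ∪ e := by
      ext x
      rw [Set.mem_iUnion]
      constructor
      · rintro ⟨n, hn⟩
        split_ifs at hn
        · exact Or.inl hn
        · exact Or.inr hn
      · rintro (h | h)
        · exact ⟨0, by simpa using h⟩
        · exact ⟨1, by simpa using h⟩
    rw [h2] at h
    exact h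
  have h2 : μ ((⋃ n, v n) ∪ e) ≤ μ (⋃ n, v n) := (le_sSup (Set.mem_image_of_mem μ h1)).trans hsup
  have h3 : μ ((⋃ n, v n) ∪ e) = μ (⋃ n, v n) + μ (e \ ⋃ n, v n) := by
    rw [← Set.union_sdiff_self, measure_union Set.disjoint_sdiff_right ((hm e he).diff (hm _ hB))]
  rw [h3] at h2
  by_contra hne
  exact absurd h2 (not_le.2 (ENNReal.lt_add_right (measure_ne_top μ _) hne))

/-- measurable sets of positive measure -/
def Pos : Type := {A : Set Ω // MeasurableSet A ∧ μ A ≠ 0}

instance : Preorder (Pos μ) where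
  le A B := A.1 ⊆ B.1
  le_refl _ := Subset.rfl
  le_trans _ _ _ h h' := Subset.trans h h'

variable {μ}

theorem Pos.le_def {A B : Pos μ} : A ≤ B ↔ A.1 ⊆ B.1 := Iff.rfl

/-- the countable chain condition -/
theorem ccc {ι : Type} (S : Set ι) (q : ι → Pos μ)
    (h : ∀ i ∈ S, ∀ j ∈ S, i ≠ j → μ ((q i).1 ∩ (q j).1) = 0) : S.Countable := by
  have h1 := Measure.countable_meas_pos_of_disjoint_iUnion₀ (μ := μ) (As := fun i : S => (q i.1).1)
    (fun i => (q i.1).2.1.nullMeasurableSet) (fun i j hij =>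
      h i.1 i.2 j.1 j.2 (fun h => hij (Subtype.ext h)))
  have h2 : {i : S | 0 < μ (q i.1).1} = Set.univ := by
    ext i
    simp only [Set.mem_ofPred_eq, Set.mem_univ, iff_true]
    exact pos_iff_ne_zero.2 (q i.1).2.2
  rw [h2] at h1
  have h3 := Set.countable_univ_iff.1 h1
  exact Set.countable_coe_iff.1 h3

/-- a positive subset of a countable union -/
theorem exists_pos_inter {u : ℕ → Set Ω} (hu : ∀ n, MeasurableSet (u n)) (q : Pos μ)
    (hq : q.1 ⊆ ⋃ n, u n) : ∃ n, ∃ r : Pos μ, r ≤ q ∧ r.1 ⊆ u n := by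
  by_contra hcon
  push Not at hcon
  apply q.2.2
  have h1 : ∀ n, μ (q.1 ∩ u n) = 0 := by
    intro n
    by_contra hne
    exact hcon n ⟨q.1 ∩ u n, q.2.1.inter (hu n), hne⟩ Set.inter_subset_left Set.inter_subset_right
  have h2 : q.1 = ⋃ n, q.1 ∩ u n := by
    rw [← Set.inter_iUnion, Set.inter_eq_left.2 hq]
  rw [h2]
  exact measure_iUnion_null h1

end

/-! ### The product of fair coins -/

/-- the fair coin -/
noncomputable def coin : Measure Bool := (2:ℝ≥0∞)⁻¹ • Measure.count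

instance : IsProbabilityMeasure coin := by
  refine ⟨?_⟩
  rw [coin, Measure.smul_apply, Measure.count_univ]
  simp [ENat.card_eq_coe_fintype_card, ENNReal.inv_mul_cancel]

theorem coin_singleton (b : Bool) : coin {b} = 2⁻¹ := by
  rw [coin, Measure.smul_apply, Measure.count_singleton]
  simp

/-- the product measure -/
noncomputable def prd (ι : Type) : Measure (ι → Bool) := Measure.infinitePi fun _ : ι => coin

instance (ι : Type) : IsProbabilityMeasure (prd ι) := by
  unfold prd; infer_instance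

/-- the sigma algebra of the coordinates in `J` -/
@[implicit_reducible] def sig {ι : Type} (J : Set ι) : MeasurableSpace (ι → Bool) :=
  ⨆ i ∈ J, MeasurableSpace.comap (fun ω : ι → Bool => ω i) inferInstance

theorem sig_mono {ι : Type} {J J' : Set ι} (h : J ⊆ J') : sig J ≤ sig J' :=
  biSup_mono h

theorem measurable_coord {ι : Type} {J : Set ι} {i : ι} (hi : i ∈ J) (b : Bool) :
    MeasurableSet[sig J] {ω : ι → Bool | ω i = b} := by
  have h1 : MeasurableSpace.comap (fun ω : ι → Bool => ω i) inferInstance ≤ sig J :=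
    le_iSup₂_of_le i hi le_rfl
  refine h1 _ ⟨{b}, trivial, ?_⟩
  ext ω
  simp

theorem support {ι : Type} {A : Set (ι → Bool)} (hA : MeasurableSet A) :
    ∃ J : Set ι, J.Countable ∧ MeasurableSet[sig J] A := by
  have hA' : MeasurableSet[⨆ i : ι, MeasurableSpace.comap (fun ω : ι → Bool => ω i) inferInstance] A := hA
  rw [MeasurableSpace.measurableSet_iSup] at hA'
  clear hA
  induction hA' with
  | basic u hu =>
    obtain ⟨i, hi⟩ := hu
    refine ⟨{i}, Set.countable_singleton i, ?_⟩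
    have h1 : MeasurableSpace.comap (fun ω : ι → Bool => ω i) inferInstance ≤ sig {i} :=
      le_iSup₂_of_le i rfl le_rfl
    exact h1 _ hi
  | empty => exact ⟨∅, Set.countable_empty, @MeasurableSet.empty _ (sig ∅)⟩
  | compl t _ ih =>
    obtain ⟨J, hJ, h⟩ := ih
    exact ⟨J, hJ, @MeasurableSet.compl _ _ (sig J) h⟩
  | iUnion f _ ih =>
    choose J hJ h using ih
    exact ⟨⋃ n, J n, Set.countable_iUnion hJ, @MeasurableSet.iUnion _ _ (sig (⋃ n, J n)) _ f
      (fun n => sig_mono (Set.subset_iUnion J n) _ (h n))⟩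

theorem sig_le {ι : Type} (J : Set ι) : sig J ≤ (MeasurableSpace.pi : MeasurableSpace (ι → Bool)) :=
  iSup₂_le fun i _ => (measurable_pi_apply i).comap_le

theorem indep {ι : Type} {S T : Set ι} (h : Disjoint S T) {A B : Set (ι → Bool)}
    (hA : MeasurableSet[sig S] A) (hB : MeasurableSet[sig T] B) :
    prd ι (A ∩ B) = prd ι A * prd ι B := by
  have h1 : iIndepFun (fun (i : ι) (ω : ι → Bool) => ω i) (prd ι) :=
    iIndepFun_infinitePi (P := fun _ : ι => coin) (X := fun _ b => b) (fun _ => measurable_id)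
  have h2 : iIndep (fun i : ι => MeasurableSpace.comap (fun ω : ι → Bool => ω i) inferInstance)
      (prd ι) := h1
  have h3 := indep_iSup_of_disjoint (fun i => (measurable_pi_apply i).comap_le) h2 h
  exact (Indep_iff _ _ _).1 h3 A B hA hB

/-- the probability of a match of a fresh row with given random variables -/
theorem fresh {K : Type} (B : ℕ → Set (K × ℕ → Bool)) (J : Set (K × ℕ))
    (hB : ∀ j, MeasurableSet[sig J] (B j)) (k : K) (hk : ∀ j, (k, j) ∉ J) (n : ℕ) :
    prd (K × ℕ) {ω | ∀ i < n, (ω ∈ B (Nat.pair n i) ↔ ω (k, Nat.pair n i) = true)} ≤ 2⁻¹ ^ n := by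
  classical
  let P : (Fin n → Bool) → Set (K × ℕ → Bool) := fun σ =>
    {ω | ∀ i : Fin n, (ω ∈ B (Nat.pair n i) ↔ σ i = true)}
  let C : (Fin n → Bool) → Set (K × ℕ → Bool) := fun σ =>
    {ω | ∀ i : Fin n, ω (k, Nat.pair n i) = σ i}
  have hP : ∀ σ, MeasurableSet[sig J] (P σ) := by
    intro σ
    have : P σ = ⋂ i : Fin n, {ω | ω ∈ B (Nat.pair n i) ↔ σ i = true} := by
      ext ω; simp [P]
    rw [this]
    refine @MeasurableSet.iInter _ _ (sig J) _ _ fun i => ?_
    by_cases h : σ i = true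
    · have : {ω | ω ∈ B (Nat.pair n i) ↔ σ i = true} = B (Nat.pair n i) := by
        ext ω; simp [h]
      rw [this]; exact hB _
    · have : {ω | ω ∈ B (Nat.pair n i) ↔ σ i = true} = (B (Nat.pair n i))ᶜ := by
        ext ω; simp [h]
      rw [this]; exact @MeasurableSet.compl _ _ (sig J) (hB _)
  have hC : ∀ σ, MeasurableSet[sig {x : K × ℕ | x.1 = k}] (C σ) := by
    intro σ
    have : C σ = ⋂ i : Fin n, {ω | ω (k, Nat.pair n i) = σ i} := by
      ext ω; simp [C]
    rw [this]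
    refine @MeasurableSet.iInter _ _ (sig _) _ _ fun i => ?_
    exact measurable_coord (by simp) _
  have hdisj : Disjoint J {x : K × ℕ | x.1 = k} := by
    rw [Set.disjoint_left]
    rintro ⟨a, b⟩ h1 h2
    have h3 : a = k := h2
    subst h3
    exact hk b h1
  have hCm : ∀ σ, prd (K × ℕ) (C σ) = 2⁻¹ ^ n := by
    intro σ
    let s : Finset (K × ℕ) := Finset.univ.image fun i : Fin n => (k, Nat.pair n i)
    let t : K × ℕ → Set Bool := fun x => if h : x.2.unpair.2 < n then {σ ⟨_, h⟩} else Set.univ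
    have h1 : C σ = (s : Set (K × ℕ)).pi t := by
      ext ω
      simp only [C, Set.mem_ofPred_eq, Set.mem_pi, s, Finset.coe_image, Finset.coe_univ,
        Set.image_univ, Set.forall_mem_range, t, Nat.unpair_pair]
      refine forall_congr' fun i => ?_
      rw [dif_pos i.2]
      simp
    rw [h1, prd, Measure.infinitePi_pi _ (fun i _ => (MeasurableSet.of_discrete : MeasurableSet (t i)))]
    rw [Finset.prod_image (by
      intro a _ b _ hab
      have := congrArg Prod.snd hab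
      simp only [Nat.pair_eq_pair] at this
      exact Fin.ext this.2)]
    have h2 : ∀ i : Fin n, coin (t (k, Nat.pair n i)) = 2⁻¹ := by
      intro i
      simp only [t, Nat.unpair_pair]
      rw [dif_pos i.2]
      exact coin_singleton _
    rw [Finset.prod_congr rfl (fun i _ => h2 i)]
    simp
  have hsub : {ω | ∀ i < n, (ω ∈ B (Nat.pair n i) ↔ ω (k, Nat.pair n i) = true)} ⊆
      ⋃ σ, P σ ∩ C σ := by
    intro ω hω
    rw [Set.mem_iUnion]
    refine ⟨fun i => ω (k, Nat.pair n i), fun i => hω i i.2, fun i => rfl⟩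
  have hPd : ∑ σ, prd (K × ℕ) (P σ) ≤ 1 := by
    rw [← measure_univ (μ := prd (K × ℕ))]
    refine sum_measure_le_measure_univ (fun σ _ => (sig_le J _ (hP σ)).nullMeasurableSet) ?_
    intro σ _ τ _ hστ
    refine Disjoint.aedisjoint ?_
    rw [Set.disjoint_left]
    intro ω h1 h2
    apply hστ
    funext i
    have h3 := (h1 i).symm.trans (h2 i)
    exact Bool.eq_iff_iff.2 h3
  calc prd (K × ℕ) {ω | ∀ i < n, (ω ∈ B (Nat.pair n i) ↔ ω (k, Nat.pair n i) = true)}
      ≤ prd (K × ℕ) (⋃ σ, P σ ∩ C σ) := measure_mono hsub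
    _ ≤ ∑ σ, prd (K × ℕ) (P σ ∩ C σ) := measure_iUnion_fintype_le _ _
    _ = ∑ σ, prd (K × ℕ) (P σ) * 2⁻¹ ^ n := by
        refine Finset.sum_congr rfl fun σ _ => ?_
        rw [indep hdisj (hP σ) (hC σ), hCm]
    _ = (∑ σ, prd (K × ℕ) (P σ)) * 2⁻¹ ^ n := by rw [Finset.sum_mul]
    _ ≤ 1 * 2⁻¹ ^ n := by gcongr
    _ = 2⁻¹ ^ n := one_mul _

/-- the tail of the matches is small -/
theorem fresh_tail {K : Type} (B : ℕ → Set (K × ℕ → Bool)) (J : Set (K × ℕ))
    (hB : ∀ j, MeasurableSet[sig J] (B j)) (k : K) (hk : ∀ j, (k, j) ∉ J) (N : ℕ) :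
    prd (K × ℕ) (⋃ n ∈ {n | N ≤ n},
      {ω | ∀ i < n, (ω ∈ B (Nat.pair n i) ↔ ω (k, Nat.pair n i) = true)}) ≤ 2⁻¹ ^ N * 2 := by
  have h1 : (⋃ n ∈ {n | N ≤ n},
      {ω | ∀ i < n, (ω ∈ B (Nat.pair n i) ↔ ω (k, Nat.pair n i) = true)}) ⊆
      ⋃ l : ℕ, {ω | ∀ i < N + l, (ω ∈ B (Nat.pair (N + l) i) ↔ ω (k, Nat.pair (N + l) i) = true)} := by
    intro ω hω
    simp only [Set.mem_iUnion] at hω ⊢
    obtain ⟨n, hn, h⟩ := hω
    have hn' : N ≤ n := hn
    obtain ⟨l, rfl⟩ := Nat.exists_eq_add_of_le hn'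
    exact ⟨l, h⟩
  refine (measure_mono h1).trans ((measure_iUnion_le _).trans ?_)
  calc ∑' l : ℕ, prd (K × ℕ) {ω | ∀ i < N + l, (ω ∈ B (Nat.pair (N + l) i) ↔ ω (k, Nat.pair (N + l) i) = true)}
      ≤ ∑' l : ℕ, 2⁻¹ ^ N * 2⁻¹ ^ l := ENNReal.tsum_le_tsum fun l => by
        rw [← pow_add]; exact fresh B J hB k hk (N + l)
    _ = 2⁻¹ ^ N * ∑' l : ℕ, (2⁻¹:ℝ≥0∞) ^ l := ENNReal.tsum_mul_left
    _ = 2⁻¹ ^ N * 2 := by rw [ENNReal.tsum_geometric, ENNReal.one_sub_inv_two, inv_inv]

end Pool.Agent.H686R2.Dow.Meas
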