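import Mathlib
import Pool.Agent.Helper220.ForceCH

/-! If every `ω₁`-indexed family of reals is covered by one small set then there is no Lusin set. -/

set_option autoImplicit false

open Set Topology Cardinal

namespace Pool.Agent.H686R2.Dow.NoLusin

open Pool.Agent.Helper220.ForceCH (Om)

/-- binary digits -/
def dig (j : ℕ) (t : ℝ) : Prop := ⌊(2:ℝ) ^ j * t⌋ % 2 = 1

open Classical in
/-- the integers which prescribe the digits -/
noncomputable def CC (r : ℕ → Prop) (m : ℕ) (c : ℤ) : ℕ → ℤ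
  | 0 => c
  | k + 1 => 2 * CC r m c k + (if r (m + k + 1) then 1 else 0)

theorem step (r : ℕ → Prop) (m : ℕ) (c : ℤ) (k : ℕ) (t : ℝ)
    (h : (CC r m c (k + 1) : ℝ) ≤ 2 ^ (m + (k + 1)) * t ∧ 2 ^ (m + (k + 1)) * t < CC r m c (k + 1) + 1) :
    (CC r m c k : ℝ) ≤ 2 ^ (m + k) * t ∧ 2 ^ (m + k) * t < CC r m c k + 1 := by
  classical
  obtain ⟨h1, h2⟩ := h
  have e1 : (2:ℝ) ^ (m + (k + 1)) * t = 2 * (2 ^ (m + k) * t) := by
    rw [← add_assoc, pow_succ]; ring
  rw [e1] at h1 h2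
  simp only [CC] at h1 h2
  push_cast at h1 h2
  by_cases hr : r (m + k + 1)
  · simp only [hr, if_true] at h1 h2
    constructor <;> linarith
  · simp only [hr, if_false] at h1 h2
    constructor <;> linarith

theorem digits (r : ℕ → Prop) (m : ℕ) (c : ℤ) (t : ℝ) : ∀ k,
    ((CC r m c k : ℝ) ≤ 2 ^ (m + k) * t ∧ 2 ^ (m + k) * t < CC r m c k + 1) →
    ∀ j, m < j → j ≤ m + k → (dig j t ↔ r j) := by
  classical
  intro k
  induction k with
  | zero =>
    intro _ j h1 h2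
    omega
  | succ k ih =>
    intro h j h1 h2
    rcases Nat.lt_or_ge j (m + (k + 1)) with h3 | h3
    · exact ih (step r m c k t h) j h1 (by omega)
    · have hj : j = m + (k + 1) := by omega
      subst hj
      have hf : ⌊(2:ℝ) ^ (m + (k + 1)) * t⌋ = CC r m c (k + 1) := by
        rw [Int.floor_eq_iff]
        exact h
      unfold dig
      rw [hf]
      simp only [CC]
      have e2 : m + (k + 1) = m + k + 1 := by omega
      rw [e2]
      by_cases hr : r (m + k + 1)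
      · simp only [hr, if_true, iff_true]
        omega
      · simp only [hr, if_false, iff_false]
        omega

theorem nowhereDense (r : ℕ → Prop) (N : ℕ) :
    IsNowhereDense {t : ℝ | ∀ n, N ≤ n → ∃ i < n, ¬ (dig (Nat.pair n i) t ↔ r (Nat.pair n i))} := by
  classical
  set S := {t : ℝ | ∀ n, N ≤ n → ∃ i < n, ¬ (dig (Nat.pair n i) t ↔ r (Nat.pair n i))} with hS
  rw [IsNowhereDense]
  by_contra hne
  rw [← Ne, ← Set.nonempty_iff_ne_empty] at hne
  obtain ⟨t0, ht0⟩ := hne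
  obtain ⟨ε, hε, hball⟩ := Metric.isOpen_iff.1 isOpen_interior t0 ht0
  obtain ⟨m, hm⟩ := exists_pow_lt_of_lt_one (half_pos hε) (show (1/2:ℝ) < 1 by norm_num)
  have hm' : 2 * (1 / 2 : ℝ) ^ m < ε := by linarith
  set c : ℤ := ⌊(2:ℝ) ^ m * t0⌋ + 1 with hc
  set n := max N (m + 1) with hn
  set K := Nat.pair n n with hK
  have h2m : (0:ℝ) < 2 ^ m := by positivity
  have hhalf : (1 / 2 : ℝ) ^ m * 2 ^ m = 1 := by
    rw [← mul_pow]; norm_num
  have h2K : (0:ℝ) < 2 ^ (m + K) := by positivity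
  -- a point of the small interval
  set V : Set ℝ := {t | (CC r m c K : ℝ) < 2 ^ (m + K) * t ∧ 2 ^ (m + K) * t < CC r m c K + 1} with hV
  have hVo : IsOpen V := by
    have hcont : Continuous fun t : ℝ => (2:ℝ) ^ (m + K) * t := continuous_const.mul continuous_id
    exact (isOpen_lt continuous_const hcont).inter (isOpen_lt hcont continuous_const)
  have hVU : V ⊆ interior (closure S) := by
    intro t ht
    apply hball
    have h0 : ∀ k, ((CC r m c k : ℝ) ≤ 2 ^ (m + k) * t ∧ 2 ^ (m + k) * t < CC r m c k + 1) →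
        ((CC r m c 0 : ℝ) ≤ 2 ^ (m + 0) * t ∧ 2 ^ (m + 0) * t < CC r m c 0 + 1) := by
      intro k
      induction k with
      | zero => exact id
      | succ k ih => exact fun h => ih (step r m c k t h)
    obtain ⟨h1, h2⟩ := h0 K ⟨ht.1.le, ht.2⟩
    simp only [CC, add_zero] at h1 h2
    rw [hc] at h1 h2
    push_cast at h1 h2
    have h3 := Int.floor_le ((2:ℝ) ^ m * t0)
    have h4 := Int.lt_floor_add_one ((2:ℝ) ^ m * t0)
    rw [Metric.mem_ball, Real.dist_eq, abs_lt]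
    have h5 : 0 < (2:ℝ) ^ m * (t - t0) := by
      have : (2:ℝ) ^ m * (t - t0) = 2 ^ m * t - 2 ^ m * t0 := by ring
      rw [this]; linarith
    have h6 : (2:ℝ) ^ m * (t - t0) < 2 ^ m * ε := by
      have e1 : (2:ℝ) ^ m * (t - t0) = 2 ^ m * t - 2 ^ m * t0 := by ring
      have e2 : (2:ℝ) < 2 ^ m * ε := by
        have := mul_lt_mul_of_pos_left hm' h2m
        have e3 : (2:ℝ) ^ m * (2 * (1 / 2 : ℝ) ^ m) = 2 := by
          calc (2:ℝ) ^ m * (2 * (1 / 2 : ℝ) ^ m) = 2 * ((1 / 2 : ℝ) ^ m * 2 ^ m) := by ring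
            _ = 2 := by rw [hhalf]; ring
        linarith
      rw [e1]; linarith
    constructor
    · have := (mul_pos_iff_of_pos_left h2m).1 h5
      linarith
    · exact lt_of_mul_lt_mul_left h6 h2m.le
  have hVne : V.Nonempty := by
    refine ⟨(CC r m c K + 1 / 2) / 2 ^ (m + K), ?_⟩
    rw [hV]
    have : (2:ℝ) ^ (m + K) * ((CC r m c K + 1 / 2) / 2 ^ (m + K)) = CC r m c K + 1 / 2 := by
      field_simp
    constructor
    · rw [this]; linarith
    · rw [this]; linarith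
  obtain ⟨v, hv⟩ := hVne
  have h7 : v ∈ closure S := interior_subset (hVU hv)
  obtain ⟨t, ht, htS⟩ := mem_closure_iff.1 h7 V hVo hv
  obtain ⟨i, hi, hne⟩ := htS n (le_max_left _ _)
  apply hne
  refine digits r m c t K ⟨ht.1.le, ht.2⟩ _ ?_ ?_
  · have h8 : n ≤ Nat.pair n i := Nat.left_le_pair _ _
    have h9 : m + 1 ≤ n := le_max_right _ _
    omega
  · have h8 : Nat.pair n i < Nat.pair n n := Nat.pair_lt_pair_right n hi
    omega

/-- a Lusin set -/
def Lusin (L : Set ℝ) : Prop := ¬ L.Countable ∧ ∀ M : Set ℝ, IsMeagre M → (L ∩ M).Countable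

theorem not_lusin (h : ∀ x : Om → ℕ → Prop, ∃ r : ℕ → Prop, ∀ a : Om, ∃ N : ℕ, ∀ n, N ≤ n →
    ∃ i < n, ¬ (x a (Nat.pair n i) ↔ r (Nat.pair n i))) : ¬ ∃ L, Lusin L := by
  rintro ⟨L, hL, hM⟩
  have hle : #Om ≤ #L := by
    rw [Cardinal.mk_toType, Cardinal.card_ord]
    have h1 : ¬ (#L ≤ ℵ₀) := fun h2 => hL (Cardinal.le_aleph0_iff_set_countable.1 h2)
    rw [← Cardinal.succ_aleph0]
    exact Order.succ_le_of_lt (not_le.1 h1)
  obtain ⟨f⟩ := hle
  obtain ⟨r, hr⟩ := h (fun a j => dig j (f a))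
  have h1 : IsMeagre (⋃ N : ℕ, {t : ℝ | ∀ n, N ≤ n → ∃ i < n,
      ¬ (dig (Nat.pair n i) t ↔ r (Nat.pair n i))}) :=
    isMeagre_iUnion fun N => (nowhereDense r N).isMeagre
  have h2 := hM _ h1
  have h3 : Set.range (fun a => (f a : ℝ)) ⊆ L ∩ ⋃ N : ℕ, {t : ℝ | ∀ n, N ≤ n → ∃ i < n,
      ¬ (dig (Nat.pair n i) t ↔ r (Nat.pair n i))} := by
    rintro _ ⟨a, rfl⟩
    obtain ⟨N, hN⟩ := hr a
    exact ⟨(f a).2, Set.mem_iUnion.2 ⟨N, hN⟩⟩
  have h4 := h2.mono h3
  have h5 : Function.Injective (fun a => (f a : ℝ)) := fun a b hab => f.injective (Subtype.ext hab)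
  have h6 : (Set.univ : Set Om).Countable := by
    refine Set.countable_of_injective_of_countable_image h5.injOn ?_
    rw [Set.image_univ]
    exact h4
  have h7 : #Om ≤ ℵ₀ := by
    have := Set.countable_univ_iff.1 h6
    exact Cardinal.mk_le_aleph0
  rw [Cardinal.mk_toType, Cardinal.card_ord] at h7
  exact absurd h7 (not_le.2 Cardinal.aleph0_lt_aleph_one)

end Pool.Agent.H686R2.Dow.NoLusin
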