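import Pool.Agent.H686R2.Dow.Exh

/-! In the extension every `ω₁`-indexed family of reals is small. -/

set_option autoImplicit false
set_option linter.unusedSectionVars false

open MeasureTheory Set
open scoped ENNReal

namespace Pool.Agent.H686R2.Dow.Reals

open Exh Meas Pool.Agent.Helper220.ForceCH

section

variable (P : Type) [Preorder P]

/-- for every `ω₁`-indexed family `x` of subsets of `ℕ` there is a subset `r` of `ℕ` such that for
every index `a` and for all but finitely many `n` the sets `x a` and `r` differ on the block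
`{pair n i | i < n}` -/
def RealsSmall : Set P :=
  fall fun x : Om → ℕ → Set P => fex fun r : ℕ → Set P => fall fun a : Om => fex fun N : ℕ =>
    fall fun n : ℕ => fall fun _ : N ≤ n => fex fun i : ℕ => fand (fground (i < n))
      (fnot (fiff (meets (x a (Nat.pair n i))) (meets (r (Nat.pair n i)))))

end

section

variable {P : Type} [Preorder P] {Ω : Type} [MeasurableSpace Ω] {μ : Measure Ω} [IsFiniteMeasure μ]

theorem exists_pos_inter' {ι : Type} [Countable ι] {u : ι → Set Ω} (hu : ∀ n, MeasurableSet (u n))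
    (q : Pos μ) (hq : q.1 ⊆ ⋃ n, u n) : ∃ n, ∃ r : Pos μ, r ≤ q ∧ r.1 ⊆ u n := by
  by_contra hcon
  push Not at hcon
  apply q.2.2
  have h1 : ∀ n, μ (q.1 ∩ u n) = 0 := by
    intro n
    by_contra hne
    exact hcon n ⟨q.1 ∩ u n, q.2.1.inter (hu n), hne⟩ Set.inter_subset_left Set.inter_subset_right
  have h2 : q.1 = ⋃ n, q.1 ∩ u n := by
    rw [← Set.inter_iUnion, Set.inter_eq_left.2 hq]
  rw [h2]
  exact measure_iUnion_null h1

/-- the Boolean value of a decided statement -/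
theorem bval (N : Set (P × Pos μ)) (p : P)
    (hdec : ∀ q : Pos μ, ∃ q' ≤ q, (p, q') ∈ meets N ∨ (p, q') ∈ fnot (meets N)) :
    ∃ B : Set Ω, MeasurableSet B ∧ (∀ q : Pos μ, q.1 ⊆ B → (p, q) ∈ meets N) ∧
      (∀ q : Pos μ, q.1 ⊆ Bᶜ → (p, q) ∈ fnot (meets N)) := by
  obtain ⟨B, hB, hmax⟩ := ess_sup μ {e | MeasurableSet e ∧ ∀ q : Pos μ, q.1 ⊆ e → (p, q) ∈ meets N}
    (fun e he => he.1) ⟨MeasurableSet.empty, fun q hq => by
      exfalso
      apply q.2.2
      rw [Set.subset_empty_iff.1 hq, measure_empty]⟩ (by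
    intro u hu
    refine ⟨MeasurableSet.iUnion fun n => (hu n).1, fun q hq => ?_⟩
    refine meets_of_dense fun t ht => ?_
    obtain ⟨n, s, hs1, hs2⟩ := exists_pos_inter (fun n => (hu n).1) t.2 (Set.Subset.trans ht.2 hq)
    exact ⟨(t.1, s), ⟨le_rfl, hs1⟩, down_meets _ _ ((hu n).2 s hs2) _ ⟨ht.1, le_rfl⟩⟩)
  refine ⟨B, hB.1, hB.2, fun q hq t ht hmem => ?_⟩
  obtain ⟨s, hs, h⟩ := hdec t.2
  have h1 : ((t.1, s) : P × Pos μ) ≤ (p, s) := ⟨ht.1, le_rfl⟩
  have h2 : ((t.1, s) : P × Pos μ) ∈ meets N := down_meets _ _ hmem _ ⟨le_rfl, hs⟩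
  rcases h with h | h
  · have h3 : μ (s.1 \ B) = 0 := hmax s.1 ⟨s.2.1, fun q' hq' =>
      down_meets _ _ h _ ⟨le_rfl, hq'⟩⟩
    have h4 : s.1 \ B = s.1 :=
      sdiff_eq_left.2 (Set.disjoint_left.2 fun ω h5 h6 => hq (ht.2 (hs h5)) h6)
    rw [h4] at h3
    exact s.2.2 h3
  · exact h (t.1, s) h1 h2

end

theorem measurable_match {K : Type} (B : ℕ → Set (K × ℕ → Bool)) (hB : ∀ j, MeasurableSet (B j))
    (k : K) (n : ℕ) :
    MeasurableSet {ω | ∀ i < n, (ω ∈ B (Nat.pair n i) ↔ ω (k, Nat.pair n i) = true)} := by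
  have hC : ∀ (j : ℕ) (b : Bool), MeasurableSet {ω : K × ℕ → Bool | ω (k, j) = b} := by
    intro j b
    exact measurableSet_eq_fun (measurable_pi_apply (k, j)) measurable_const
  have : {ω : K × ℕ → Bool | ∀ i < n, (ω ∈ B (Nat.pair n i) ↔ ω (k, Nat.pair n i) = true)} =
      ⋂ i : ℕ, ⋂ _ : i < n, ((B (Nat.pair n i) ∩ {ω | ω (k, Nat.pair n i) = true}) ∪
        ((B (Nat.pair n i))ᶜ ∩ {ω | ω (k, Nat.pair n i) = true}ᶜ)) := by
    ext ω
    simp only [Set.mem_ofPred_eq, Set.mem_iInter, Set.mem_union, Set.mem_inter_iff, Set.mem_compl_iff]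
    refine forall_congr' fun i => forall_congr' fun _ => ?_
    exact iff_iff_and_or_not_and_not
  rw [this]
  refine MeasurableSet.iInter fun i => MeasurableSet.iInter fun _ => ?_
  exact ((hB _).inter (hC _ _)).union ((hB _).compl.inter (hC _ _).compl)

/-- the index set of the random reals -/
abbrev KK (P : Type) : Type := Set ((P × Om) × ℕ)

/-- the measure -/
noncomputable abbrev mu (P : Type) : Measure (KK P × ℕ → Bool) := prd (KK P × ℕ)

theorem realsSmall {P : Type} [Preorder P] (hP : SigmaClosed P) (p0 : P × Pos (mu P)) :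
    p0 ∈ RealsSmall (P × Pos (mu P)) := by
  classical
  intro x
  -- decide the reals
  have hdec : ∀ t : P × Om, ∃ p ≤ t.1, ∀ j : ℕ, ∀ q : Pos (mu P), ∃ q' ≤ q,
      (p, q') ∈ meets (x t.2 j) ∨ (p, q') ∈ fnot (meets (x t.2 j)) := by
    intro t
    let top : Pos (mu P) := ⟨Set.univ, MeasurableSet.univ, by
      rw [measure_univ]; exact one_ne_zero⟩
    obtain ⟨p, hp, h⟩ := dec hP (fun j => {r : P × Pos (mu P) | r ∈ meets (x t.2 j) ∨
        r ∈ fnot (meets (x t.2 j))}) (by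
        intro n r hr r' hr'
        rcases hr with h | h
        · exact Or.inl (down_meets _ _ h _ hr')
        · exact Or.inr (down_fnot _ _ h _ hr')) t.1 top (by
        intro n r _
        by_cases h : ∃ r' ≤ r, r' ∈ meets (x t.2 n)
        · obtain ⟨r', hr', h'⟩ := h
          exact ⟨r', hr', Or.inl h'⟩
        · exact ⟨r, le_rfl, Or.inr fun r' hr' h' => h ⟨r', hr', h'⟩⟩)
    exact ⟨p, hp, fun j q => h j q (Set.subset_univ _)⟩
  choose S hS1 hS2 using hdec
  have hB := fun (t : P × Om) (j : ℕ) => bval (x t.2 j) (S t) (hS2 t j)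
  choose B hB1 hB2 hB3 using hB
  have hJ := fun (t : P × Om) (j : ℕ) => support (hB1 t j)
  choose J hJ1 hJ2 using hJ
  -- a fresh row
  have hrow : ∀ t : P × Om, ∃ u : ℕ → KK P, ∀ j, ∀ y ∈ J t j, ∃ n, u n = y.1 := by
    intro t
    have h1 : (Prod.fst '' ⋃ j, J t j).Countable := (Set.countable_iUnion (hJ1 t)).image _
    rcases Set.eq_empty_or_nonempty (Prod.fst '' ⋃ j, J t j) with h0 | h0
    · refine ⟨fun _ => ∅, fun j y hy => ?_⟩
      exfalso
      have : y.1 ∈ (Prod.fst '' ⋃ j, J t j) := ⟨y, Set.mem_iUnion.2 ⟨j, hy⟩, rfl⟩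
      rw [h0] at this
      exact this
    · obtain ⟨u, hu⟩ := h1.exists_eq_range h0
      refine ⟨u, fun j y hy => ?_⟩
      have : y.1 ∈ (Prod.fst '' ⋃ j, J t j) := ⟨y, Set.mem_iUnion.2 ⟨j, hy⟩, rfl⟩
      rw [hu] at this
      exact this
  choose u hu using hrow
  obtain ⟨k, hk⟩ : ∃ k : KK P, ∀ t n, u t n ≠ k := by
    have h1 := Function.cantor_surjective (fun s : (P × Om) × ℕ => u s.1 s.2)
    simp only [Function.Surjective] at h1
    push Not at h1
    obtain ⟨k, hk⟩ := h1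
    exact ⟨k, fun t n => hk (t, n)⟩
  have hfresh : ∀ t : P × Om, ∀ j, (k, j) ∉ ⋃ j, J t j := by
    intro t j h
    obtain ⟨i, hi⟩ := Set.mem_iUnion.1 h
    obtain ⟨n, hn⟩ := hu t i _ hi
    exact hk t n hn
  -- the name of the small set
  refine mem_fex.2 fun q0 _ => ⟨q0, le_rfl, fun j => {t | t.2.1 ⊆ {ω | ω (k, j) = true}},
    fun a => mem_fex.2 fun t _ => ?_⟩
  obtain ⟨p, q⟩ := t
  set t : P × Om := (p, a) with ht
  set E : ℕ → Set (KK P × ℕ → Bool) := fun n =>
    {ω | ∀ i < n, (ω ∈ B t (Nat.pair n i) ↔ ω (k, Nat.pair n i) = true)} with hE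
  have hEm : ∀ n, MeasurableSet (E n) := fun n => measurable_match (B t) (hB1 t) k n
  have htail : ∀ N, mu P (⋃ n ∈ {n | N ≤ n}, E n) ≤ 2⁻¹ ^ N * 2 := fun N =>
    fresh_tail (B t) (⋃ j, J t j) (fun j => sig_mono (Set.subset_iUnion (J t) j) _ (hJ2 t j)) k
      (hfresh t) N
  obtain ⟨N, hN⟩ : ∃ N : ℕ, (2⁻¹ : ℝ≥0∞) ^ N * 2 < mu P q.1 := by
    have h1 : Filter.Tendsto (fun N : ℕ => (2⁻¹ : ℝ≥0∞) ^ N * 2) Filter.atTop (nhds (0 * 2)) := by
      refine ENNReal.Tendsto.mul_const (ENNReal.tendsto_pow_atTop_nhds_zero_of_lt_one ?_) (Or.inr (by norm_num))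
      exact ENNReal.inv_lt_one.2 (by norm_num)
    rw [zero_mul] at h1
    have h2 : (0:ℝ≥0∞) < mu P q.1 := pos_iff_ne_zero.2 q.2.2
    exact ((tendsto_order.1 h1).2 _ h2).exists
  have hTm : MeasurableSet (⋃ n ∈ {n | N ≤ n}, E n) :=
    MeasurableSet.biUnion (Set.to_countable _) fun n _ => hEm n
  let q' : Pos (mu P) := ⟨q.1 \ ⋃ n ∈ {n | N ≤ n}, E n, q.2.1.diff hTm, by
    intro h0
    have h1 : mu P q.1 ≤ mu P (q.1 \ ⋃ n ∈ {n | N ≤ n}, E n) + mu P (⋃ n ∈ {n | N ≤ n}, E n) := by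
      refine (measure_mono ?_).trans (measure_union_le _ _)
      rw [Set.sdiff_union_self]
      exact Set.subset_union_left
    rw [h0, zero_add] at h1
    exact absurd (h1.trans (htail N)) (not_le.2 hN)⟩
  refine ⟨(S t, q'), ⟨hS1 t, Set.sdiff_subset⟩, N, fun n hn => mem_fex.2 fun v hv => ?_⟩
  obtain ⟨p'', q''⟩ := v
  -- find the place of disagreement
  let w : ℕ × Bool → Set (KK P × ℕ → Bool) := fun c =>
    if c.1 < n then (if c.2 then B t (Nat.pair n c.1) ∩ {ω | ω (k, Nat.pair n c.1) = false}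
      else (B t (Nat.pair n c.1))ᶜ ∩ {ω | ω (k, Nat.pair n c.1) = true}) else ∅
  have hC : ∀ (j : ℕ) (b : Bool), MeasurableSet {ω : KK P × ℕ → Bool | ω (k, j) = b} := by
    intro j b
    exact measurableSet_eq_fun (measurable_pi_apply (k, j)) measurable_const
  have hwm : ∀ c, MeasurableSet (w c) := by
    rintro ⟨i, b⟩
    by_cases h1 : i < n
    · cases b
      · have : w (i, false) = (B t (Nat.pair n i))ᶜ ∩ {ω | ω (k, Nat.pair n i) = true} := by
          simp [w, h1]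
        rw [this]
        exact (hB1 t _).compl.inter (hC _ _)
      · have : w (i, true) = B t (Nat.pair n i) ∩ {ω | ω (k, Nat.pair n i) = false} := by
          simp [w, h1]
        rw [this]
        exact (hB1 t _).inter (hC _ _)
    · have : w (i, b) = ∅ := by simp [w, h1]
      rw [this]
      exact MeasurableSet.empty
  have hcov : q''.1 ⊆ ⋃ c, w c := by
    intro ω hω
    have h1 : ω ∉ E n := fun h => (hv.2 hω).2 (Set.mem_biUnion (show n ∈ {n | N ≤ n} from hn) h)
    have h2 : ∃ i < n, ¬ (ω ∈ B t (Nat.pair n i) ↔ ω (k, Nat.pair n i) = true) := by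
      by_contra hcon
      push Not at hcon
      exact h1 hcon
    obtain ⟨i, hi, hne⟩ := h2
    rw [Set.mem_iUnion]
    by_cases h3 : ω ∈ B t (Nat.pair n i)
    · refine ⟨(i, true), ?_⟩
      have : w (i, true) = B t (Nat.pair n i) ∩ {ω | ω (k, Nat.pair n i) = false} := by
        simp [w, hi]
      rw [this]
      refine ⟨h3, ?_⟩
      cases hb : ω (k, Nat.pair n i) with
      | false => exact hb
      | true => exact absurd (iff_of_true h3 hb) hne
    · refine ⟨(i, false), ?_⟩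
      have : w (i, false) = (B t (Nat.pair n i))ᶜ ∩ {ω | ω (k, Nat.pair n i) = true} := by
        simp [w, hi]
      rw [this]
      refine ⟨h3, ?_⟩
      cases hb : ω (k, Nat.pair n i) with
      | true => exact hb
      | false => exact absurd (iff_of_false h3 (by simp [hb])) hne
  obtain ⟨⟨i, b⟩, s, hs1, hs2⟩ := exists_pos_inter' hwm q'' hcov
  have hi : i < n := by
    by_contra h
    have : w (i, b) = ∅ := by simp [w, h]
    rw [this] at hs2
    apply s.2.2
    rw [Set.subset_empty_iff.1 hs2, measure_empty]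
  refine ⟨(p'', s), ⟨le_rfl, hs1⟩, i, hi, ?_⟩
  have hle : ((p'', s) : P × Pos (mu P)) ≤ (S t, s) := ⟨hv.1, le_rfl⟩
  cases b
  · have hw : w (i, false) = (B t (Nat.pair n i))ᶜ ∩ {ω | ω (k, Nat.pair n i) = true} := by
      simp [w, hi]
    rw [hw] at hs2
    have h1 : ((p'', s) : P × Pos (mu P)) ∈ fnot (meets (x a (Nat.pair n i))) :=
      down_fnot _ _ (hB3 t _ s (hs2.trans Set.inter_subset_left)) _ hle
    have h2 : ((p'', s) : P × Pos (mu P)) ∈
        meets {t : P × Pos (mu P) | t.2.1 ⊆ {ω | ω (k, Nat.pair n i) = true}} := by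
      intro y hy
      exact ⟨y, le_rfl, (p'', s), hs2.trans Set.inter_subset_right, hy⟩
    intro y hy hiff
    obtain ⟨z, hz, hz'⟩ := mem_fimp.1 hiff.2 y le_rfl (down_meets _ _ h2 _ hy)
    exact h1 z (hz.trans hy) hz'
  · have hw : w (i, true) = B t (Nat.pair n i) ∩ {ω | ω (k, Nat.pair n i) = false} := by
      simp [w, hi]
    rw [hw] at hs2
    have h1 : ((p'', s) : P × Pos (mu P)) ∈ meets (x a (Nat.pair n i)) :=
      down_meets _ _ (hB2 t _ s (hs2.trans Set.inter_subset_left)) _ hle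
    have h2 : ((p'', s) : P × Pos (mu P)) ∈ fnot
        (meets {t : P × Pos (mu P) | t.2.1 ⊆ {ω | ω (k, Nat.pair n i) = true}}) := by
      intro y hy hm
      obtain ⟨z, hz, v, hv1, hv2⟩ := hm y le_rfl
      apply z.2.2.2
      have h3 : z.2.1 = ∅ := by
        rw [Set.eq_empty_iff_forall_notMem]
        intro ω hω
        have h4 : ω (k, Nat.pair n i) = true := hv1 (hv2.2 hω)
        have h5 : ω (k, Nat.pair n i) = false := (hs2 (hy.2 (hz.2 hω))).2
        rw [h4] at h5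
        exact Bool.noConfusion h5
      rw [h3, measure_empty]
    intro y hy hiff
    obtain ⟨z, hz, hz'⟩ := mem_fimp.1 hiff.1 y le_rfl (down_meets _ _ h1 _ hy)
    exact h2 z (hz.trans hy) hz'

end Pool.Agent.H686R2.Dow.Reals
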