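import Pool.Agent.H686R2.Dow.JT
import Pool.Agent.H686R2.Dow.Exh

/-! The generic tree stays a Souslin tree after adding random reals. -/

set_option autoImplicit false
set_option linter.unusedSectionVars false

open MeasureTheory Set

namespace Pool.Agent.H686R2.Dow.Seal

open WO JT Exh Meas Pool.Agent.Helper220.ForceCH

section

variable (P : Type) [Preorder P]

/-- the relation named by `T` is a normal Souslin tree -/
def SouslinName (T : Om × ℕ → Om × ℕ → Set P) : Set P :=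
  fand (fall fun x => meets (T x x)) <|
  fand (fall fun x => fall fun y => fall fun z =>
    fimp (fand (meets (T x y)) (meets (T y z))) (meets (T x z))) <|
  fand (fall fun x => fall fun y => fimp (meets (T x y)) (fground (x.1 ≤ y.1))) <|
  fand (fall fun y : Om × ℕ => fall fun α : Om => fall fun _ : α ≤ y.1 => fex fun n : ℕ =>
    meets (T (α, n) y)) <|
  fand (fall fun y : Om × ℕ => fall fun α : Om => fall fun n : ℕ => fall fun n' : ℕ =>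
    fimp (fand (meets (T (α, n) y)) (meets (T (α, n') y))) (fground (n = n'))) <|
  fand (fall fun x : Om × ℕ => fall fun β : Om => fall fun _ : x.1 < β => fall fun N : ℕ =>
    fex fun m : ℕ => fand (fground (N ≤ m)) (meets (T x (β, m)))) <|
  fall fun f : Om → Om × ℕ → Set P => fimp (IsFun f)
    (fex fun a : Om => fex fun b : Om => fand (fground (a ≠ b))
      (fex fun x : Om × ℕ => fex fun y : Om × ℕ =>
        fand (fand (meets (f a x)) (meets (f b y))) (meets (T x y))))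

end

variable {Ω : Type} [MeasurableSpace Ω] {μ : Measure Ω} [IsFiniteMeasure μ]

variable (μ) in
/-- the generic tree -/
def gen (x y : Om × ℕ) : Set (TC × Pos μ) :=
  {p | x.1 ≤ y.1 ∧ y.1 ≤ p.1.δ ∧ p.1.π x.1 y.1 y.2 = x.2}

theorem meets_gen {x y : Om × ℕ} {p : TC × Pos μ} (hy : y.1 ≤ p.1.δ) :
    p ∈ meets (gen μ x y) ↔ x.1 ≤ y.1 ∧ p.1.π x.1 y.1 y.2 = x.2 := by
  constructor
  · intro h
    obtain ⟨r, hr, s, ⟨h1, h2, h3⟩, hrs⟩ := h p le_rfl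
    refine ⟨h1, ?_⟩
    rw [← hr.1.2 _ _ _ h1 hy, hrs.1.2 _ _ _ h1 h2, h3]
  · rintro ⟨h1, h2⟩ q hq
    exact ⟨q, le_rfl, q, ⟨h1, hy.trans hq.1.1, by rw [hq.1.2 _ _ _ h1 hy, h2]⟩, le_rfl⟩

theorem exists_ht (γ : Om) (p : TC × Pos μ) : ∃ q ≤ p, γ ≤ q.1.δ := by
  obtain ⟨p', hp', h⟩ := exists_height γ p.1
  exact ⟨(p', p.2), ⟨hp', le_rfl⟩, h⟩

theorem gen_refl (x : Om × ℕ) (p : TC × Pos μ) : p ∈ meets (gen μ x x) := by
  refine meets_of_dense fun q _ => ?_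
  obtain ⟨r, hr, h⟩ := exists_ht x.1 q
  exact ⟨r, hr, (meets_gen h).2 ⟨le_rfl, r.1.nt.refl _ h _⟩⟩

/-! ### Sealing -/

/-- the deciding conditions -/
def DD (f : Om → Om × ℕ → Set (TC × Pos μ)) : Set (TN × Pos μ) :=
  {t | (∃ a x, x.1 ≤ t.1.1.δ ∧ t.1.1.π x.1 t.1.1.δ t.1.2 = x.2 ∧ (t.1.1, t.2) ∈ meets (f a x)) ∨
    (∀ p' : TC × Pos μ, p' ≤ (t.1.1, t.2) → ∀ a z, t.1.1.δ ≤ z.1 → z.1 ≤ p'.1.δ →
      p'.1.π t.1.1.δ z.1 z.2 = t.1.2 → p' ∉ meets (f a z))}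

theorem dd_down (f : Om → Om × ℕ → Set (TC × Pos μ)) : Down (DD f) := by
  rintro ⟨a, q⟩ h ⟨b, q'⟩ ⟨h1, h2⟩
  have h1 : b ≤ a := h1
  rcases h with ⟨c, x, hx1, hx2, hx3⟩ | h
  · dsimp only at hx1 hx2 hx3
    refine Or.inl ⟨c, x, hx1.trans h1.1.1, ?_, down_meets _ _ hx3 _ ⟨h1.1, h2⟩⟩
    show b.1.π x.1 b.1.δ b.2 = x.2
    rw [← b.1.nt.coh x.1 a.1.δ b.1.δ b.2 hx1 h1.1.1 (Set.mem_Iic.2 le_rfl), h1.2,
      h1.1.2 _ _ _ hx1 le_rfl, hx2]
  · refine Or.inr fun p' hp' c z hz1 hz2 hz3 => ?_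
    dsimp only at hp' hz1 hz2 hz3 h
    refine h p' (hp'.trans ⟨h1.1, h2⟩) c z (h1.1.1.trans hz1) hz2 ?_
    rw [← p'.1.nt.coh a.1.δ b.1.δ z.1 z.2 h1.1.1 hz1 (Set.mem_Iic.2 hz2), hz3,
      hp'.1.2 _ _ _ h1.1.1 le_rfl, h1.2]

theorem dd_dense (f : Om → Om × ℕ → Set (TC × Pos μ)) (t : TN × Pos μ) : ∃ s ≤ t, s ∈ DD f := by
  by_cases h : ∀ p' : TC × Pos μ, p' ≤ (t.1.1, t.2) → ∀ a z, t.1.1.δ ≤ z.1 → z.1 ≤ p'.1.δ →
      p'.1.π t.1.1.δ z.1 z.2 = t.1.2 → p' ∉ meets (f a z)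
  · exact ⟨t, le_rfl, Or.inr h⟩
  · push Not at h
    obtain ⟨p', hp', a, z, hz1, hz2, hz3, hz4⟩ := h
    obtain ⟨m, hm⟩ := exists_top p'.1 hz2 z.2
    refine ⟨((p'.1, m), p'.2), ⟨⟨hp'.1, ?_⟩, hp'.2⟩, Or.inl ⟨a, z, hz2, hm, hz4⟩⟩
    show p'.1.π t.1.1.δ p'.1.δ m = t.1.2
    rw [← p'.1.nt.coh t.1.1.δ z.1 p'.1.δ m hz1 hz2 (Set.mem_Iic.2 le_rfl), hm, hz3]

/-- good nodes -/
def Good (f : Om → Om × ℕ → Set (TC × Pos μ)) (q0 : Pos μ) (a : TN) : Prop :=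
  ∀ q ≤ q0, ∃ q' ≤ q, (a, q') ∈ DD f

theorem good_mono {f : Om → Om × ℕ → Set (TC × Pos μ)} {q0 : Pos μ} {a b : TN} (h : b ≤ a)
    (ha : Good f q0 a) : Good f q0 b := by
  intro q hq
  obtain ⟨q', hq', h1⟩ := ha q hq
  exact ⟨q', hq', dd_down f _ h1 _ ⟨h, le_rfl⟩⟩

theorem exists_good (f : Om → Om × ℕ → Set (TC × Pos μ)) (q0 : Pos μ) (a : TN) :
    ∃ b ≤ a, Good f q0 b :=
  exh tn_sigmaClosed (DD f) (dd_down f) a q0 (fun x _ => dd_dense f x)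

theorem stage (f : Om → Om × ℕ → Set (TC × Pos μ)) (q0 : Pos μ) (p : TC) :
    ∃ p' ≤ p, p.δ < p'.δ ∧ ∀ m : ℕ, ∃ m' : ℕ, p'.π p.δ p'.δ m' = m ∧ Good f q0 (p', m') := by
  obtain ⟨r, hr, h⟩ := meet_countable tc_sigmaClosed
    (fun m : ℕ => {p' : TC | ∃ b : TN, b ≤ ((p, m) : TN) ∧ b.1 = p' ∧ Good f q0 b}) (by
      rintro m p' ⟨b, hb1, rfl, hb3⟩ p'' hp''
      obtain ⟨c, hc1, hc2⟩ := exists_tn b hp''
      exact ⟨c, hc1.trans hb1, hc2, good_mono hc1 hb3⟩) p (by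
      intro m r hr
      obtain ⟨b, hb1, hb2⟩ := exists_tn ((p, m) : TN) hr
      obtain ⟨c, hc1, hc2⟩ := exists_good f q0 b
      exact ⟨c.1, hb2 ▸ hc1.1, c, hc1.trans hb1, rfl, hc2⟩)
  obtain ⟨p', hp', hlt⟩ := exists_succ r
  refine ⟨p', hp'.trans hr, hr.1.trans_lt hlt, fun m => ?_⟩
  obtain ⟨b, hb1, hb2, hb3⟩ := h m
  obtain ⟨c, hc1, hc2⟩ := exists_tn b (p := p') (hb2 ▸ hp')
  refine ⟨c.2, ?_, ?_⟩
  · have := (hc1.trans hb1).2
    rw [hc2] at this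
    exact this
  · have := good_mono hc1 hb3
    rw [← hc2]
    exact this

theorem antichain (f : Om → Om × ℕ → Set (TC × Pos μ)) (p0 : TC × Pos μ) (hf : p0 ∈ IsFun f)
    (H : ∀ r ≤ p0, ∀ a b x y, a ≠ b → r ∈ meets (f a x) → r ∈ meets (f b y) →
      r ∉ meets (gen μ x y)) : False := by
  classical
  have hst := fun p : TC => stage f p0.2 p
  choose S hS1 hS2 hS3 using hst
  let s : ℕ → TC := fun n => Nat.rec p0.1 (fun _ p => S p) n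
  have hs : ∀ n, s (n + 1) = S (s n) := fun _ => rfl
  have hs1 : ∀ n, s (n + 1) ≤ s n := fun n => hS1 (s n)
  have hs2 : ∀ n, (s n).δ < (s (n + 1)).δ := fun n => hS2 (s n)
  have hs0 : ∀ n, s n ≤ p0.1 := by
    intro n
    induction n with
    | zero => exact le_rfl
    | succ n ih => exact (hs1 n).trans ih
  obtain ⟨δ, hδ1, hδ2⟩ := exists_sup hc hu (fun n => (s n).δ)
  have hlim : Lim δ := by
    refine ⟨⟨_, hδ1 0⟩, fun α hα => ?_⟩
    obtain ⟨n, hn⟩ := hδ2 α hα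
    exact ⟨(s (n + 1)).δ, hn.trans_lt (hs2 n), hδ1 (n + 1)⟩
  obtain ⟨π, T, hπ⟩ := glue s hs1 δ hδ2
  have hbr : ∀ x : {x : Om × ℕ // x.1 < δ}, ∃ b : Om → ℕ, Br (Set.Iio δ) π b ∧ b x.1.1 = x.1.2 ∧
      ∃ k, Good f p0.2 (s (k + 1), b (s (k + 1)).δ) := by
    rintro ⟨x, hx⟩
    obtain ⟨k, hk⟩ := hδ2 x.1 hx
    obtain ⟨m, hm⟩ := exists_top (s k) hk x.2
    obtain ⟨m', hm'1, hm'2⟩ := hS3 (s k) m
    have hm'3 : (s (k + 1)).π (s k).δ (s (k + 1)).δ m' = m := hm'1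
    obtain ⟨b, hb1, hb2, -⟩ := exists_branch hc hlim T ((s (k + 1)).δ, m') (hδ1 (k + 1))
      (fun _ _ => 0)
    dsimp only at hb2
    refine ⟨b, hb1, ?_, k, ?_⟩
    · have h1 : x.1 ≤ (s (k + 1)).δ := hk.trans (hs2 k).le
      rw [← hb1.coh x.1 (s (k + 1)).δ h1 (hδ1 (k + 1)), hb2,
        hπ (k + 1) _ _ _ h1 le_rfl (hδ1 (k + 1)),
        ← (s (k + 1)).nt.coh x.1 (s k).δ (s (k + 1)).δ m' hk (hs2 k).le (Set.mem_Iic.2 le_rfl),
        hm'3, (hs1 k).2 _ _ _ hk le_rfl, hm]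
    · rw [hb2]; exact hm'2
  choose G hG1 hG2 hG3 using hbr
  obtain ⟨g, hg1, hg2⟩ := exists_enum hlim.1
  obtain ⟨q, hq1, hq2, hq3⟩ := limit s hs1 hδ1 T hπ
    (fun t => G ⟨g t.unpair.1, hg1 _⟩) (by
      intro t α β h1 h2
      exact (hG1 _).coh α β h1 h2) (by
      intro α hα n
      obtain ⟨j, hj⟩ := hg2 (α, n) hα
      refine Set.infinite_of_injective_forall_mem (f := fun i : ℕ => Nat.pair j i) ?_ ?_
      · intro i i' h
        exact (Nat.pair_eq_pair.1 h).2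
      · intro i
        show G ⟨g (Nat.pair j i).unpair.1, hg1 _⟩ α = n
        have h1 := hG2 ⟨g (Nat.pair j i).unpair.1, hg1 _⟩
        have h2 : g (Nat.pair j i).unpair.1 = (α, n) := by rw [Nat.unpair_pair]; exact hj
        simp only [h2] at h1 ⊢
        exact h1)
  -- every node on the last level of `q` lies above a good node
  have hgood : ∀ t : ℕ, ∃ k m', q.π (s k).δ δ t = m' ∧ Good f p0.2 (s k, m') := by
    intro t
    obtain ⟨k, hk⟩ := hG3 ⟨g t.unpair.1, hg1 _⟩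
    exact ⟨k + 1, _, hq3 _ (hδ1 (k + 1)) t, hk⟩
  -- the antichain lies below `δ`
  have claim : ∀ p' ≤ (q, p0.2), ∀ a z, z.1 ≤ p'.1.δ → p' ∈ meets (f a z) → z.1 < δ := by
    intro p' hp' a z hz hmz
    by_contra hδz
    have hδz : δ ≤ z.1 := not_lt.1 hδz
    obtain ⟨k, m', hm', hgd⟩ := hgood (p'.1.π δ z.1 z.2)
    have hq1' : δ ≤ q.δ := hq1.ge
    have hkδ : (s k).δ < δ := hδ1 k
    have hm'2 : p'.1.π (s k).δ z.1 z.2 = m' := by
      rw [← p'.1.nt.coh (s k).δ δ z.1 z.2 hkδ.le hδz (Set.mem_Iic.2 hz),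
        hp'.1.2 _ _ _ hkδ.le hq1', hm']
    obtain ⟨q', hq', hDD⟩ := hgd p'.2 hp'.2
    have hle1 : ((p'.1, q') : TC × Pos μ) ≤ (s k, q') := ⟨hp'.1.trans (hq2 k), le_rfl⟩
    have hle2 : ((p'.1, q') : TC × Pos μ) ≤ p' := ⟨le_rfl, hq'⟩
    have hle3 : ((p'.1, q') : TC × Pos μ) ≤ p0 :=
      ⟨(hp'.1.trans (hq2 k)).trans (hs0 k), hq'.trans hp'.2⟩
    have hmz' := down_meets _ _ hmz _ hle2
    rcases hDD with ⟨c, x, hx1, hx2, hx3⟩ | hno
    · dsimp only at hx1 hx2 hx3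
      have hmx := down_meets _ _ hx3 _ hle1
      have hxz : ((p'.1, q') : TC × Pos μ) ∈ meets (gen μ x z) := by
        refine (meets_gen (p := ((p'.1, q') : TC × Pos μ)) hz).2 ⟨hx1.trans (hkδ.le.trans hδz), ?_⟩
        show p'.1.π x.1 z.1 z.2 = x.2
        rw [← p'.1.nt.coh x.1 (s k).δ z.1 z.2 hx1 (hkδ.le.trans hδz) (Set.mem_Iic.2 hz), hm'2,
          (hp'.1.trans (hq2 k)).2 _ _ _ hx1 le_rfl, hx2]
      by_cases hca : c = a
      · subst hca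
        obtain ⟨_, _, h4⟩ := mem_fimp.1 (hf.2 c x z) _ hle3 ⟨hmx, hmz'⟩
        have h5 : x = z := h4
        rw [h5] at hx1
        exact absurd (hx1.trans_lt hkδ) (not_lt.2 hδz)
      · exact H _ hle3 c a x z hca hmx hmz' hxz
    · exact hno (p'.1, q') hle1 a z (hkδ.le.trans hδz) hz hm'2 hmz'
  -- decide everything about the nodes below `δ`
  obtain ⟨p1, hp1, hdec⟩ := dec tc_sigmaClosed (fun n => {r : TC × Pos μ |
      (∃ a, r ∈ meets (f a (g n))) ∨ ∀ r' ≤ r, ∀ a, r' ∉ meets (f a (g n))}) (by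
      intro n r hr r' hr'
      rcases hr with ⟨a, ha⟩ | h
      · exact Or.inl ⟨a, down_meets _ _ ha _ hr'⟩
      · exact Or.inr fun r'' hr'' => h r'' (hr''.trans hr')) q p0.2 (by
      intro n x _
      by_cases h : ∀ r' ≤ x, ∀ a, r' ∉ meets (f a (g n))
      · exact ⟨x, le_rfl, Or.inr h⟩
      · push Not at h
        obtain ⟨r', hr', a, ha⟩ := h
        exact ⟨r', hr', Or.inl ⟨a, ha⟩⟩)
  have hp10 : p1 ≤ p0.1 := hp1.trans ((hq2 0).trans (hs0 0))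
  have hV : ∀ n, {a : Om | ∃ q' ≤ p0.2, (p1, q') ∈ meets (f a (g n))}.Countable := by
    intro n
    let qf : Om → Pos μ := fun a =>
      if h : ∃ q' ≤ p0.2, (p1, q') ∈ meets (f a (g n)) then h.choose else p0.2
    refine ccc _ qf ?_
    intro a ha b hb hab
    by_contra hne
    have h1 : qf a = ha.choose := dif_pos ha
    have h2 : qf b = hb.choose := dif_pos hb
    let r : Pos μ := ⟨(qf a).1 ∩ (qf b).1, (qf a).2.1.inter (qf b).2.1, hne⟩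
    have h3 : (p1, r) ∈ meets (f a (g n)) := by
      refine down_meets _ _ ha.choose_spec.2 _ ⟨le_rfl, ?_⟩
      show r.1 ⊆ ha.choose.1
      rw [← h1]; exact Set.inter_subset_left
    have h4 : (p1, r) ∈ meets (f b (g n)) := by
      refine down_meets _ _ hb.choose_spec.2 _ ⟨le_rfl, ?_⟩
      show r.1 ⊆ hb.choose.1
      rw [← h2]; exact Set.inter_subset_right
    have h5 : r ≤ p0.2 := by
      have : r.1 ⊆ ha.choose.1 := by rw [← h1]; exact Set.inter_subset_left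
      exact this.trans ha.choose_spec.1
    exact H (p1, r) ⟨hp10, h5⟩ a b _ _ hab h3 h4 (gen_refl _ _)
  have hVc : (⋃ n, {a : Om | ∃ q' ≤ p0.2, (p1, q') ∈ meets (f a (g n))}).Countable :=
    Set.countable_iUnion hV
  obtain ⟨a, ha⟩ : ∃ a : Om, a ∉ ⋃ n, {a : Om | ∃ q' ≤ p0.2, (p1, q') ∈ meets (f a (g n))} := by
    by_contra hcon
    push Not at hcon
    exact hu (hVc.mono fun a _ => hcon a)
  obtain ⟨r, hr, z, hz⟩ := mem_fex.1 (hf.1 a) (p1, p0.2) ⟨hp10, le_rfl⟩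
  obtain ⟨r', hr', hh⟩ := exists_ht z.1 r
  have hz' := down_meets _ _ hz _ hr'
  have hlt : z.1 < δ := claim r' (hr'.trans (hr.trans ⟨hp1, le_rfl⟩)) a z hh hz'
  obtain ⟨n, hn⟩ := hg2 z hlt
  have hr1 : r'.1 ≤ p1 := hr'.1.trans hr.1
  have hr2 : r'.2 ≤ p0.2 := hr'.2.trans hr.2
  obtain ⟨q'', hq'', hd⟩ := hdec n r'.2 hr2
  have hm : ((r'.1, q'') : TC × Pos μ) ∈ meets (f a z) := down_meets _ _ hz' _ ⟨le_rfl, hq''⟩
  rw [Set.mem_ofPred_eq, hn] at hd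
  rcases hd with ⟨a', ha'⟩ | hno
  · have hm' : ((r'.1, q'') : TC × Pos μ) ∈ meets (f a' z) := down_meets _ _ ha' _ ⟨hr1, le_rfl⟩
    by_cases haa : a = a'
    · subst haa
      refine ha (Set.mem_iUnion.2 ⟨n, q'', hq''.trans hr2, ?_⟩)
      rw [hn]; exact ha'
    · exact H (r'.1, q'') ⟨hr1.trans hp10, hq''.trans hr2⟩ a a' z z haa hm hm' (gen_refl _ _)
  · exact hno (r'.1, q'') ⟨hr1, le_rfl⟩ a hm

theorem souslin (p : TC × Pos μ) : p ∈ SouslinName (TC × Pos μ) (gen μ) := by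
  refine ⟨fun x => gen_refl x p, fun x y z => ?_, fun x y => ?_, fun y α hα => ?_,
    fun y α n n' => ?_, fun x β hβ N => ?_, fun f => ?_⟩
  · refine fimp_of fun q _ h => meets_of_dense fun r hr => ?_
    obtain ⟨t, ht, hh⟩ := exists_ht (max y.1 z.1) r
    have hy : y.1 ≤ t.1.δ := (le_max_left _ _).trans hh
    have hz : z.1 ≤ t.1.δ := (le_max_right _ _).trans hh
    obtain ⟨h1, h2⟩ := (meets_gen hy).1 (down_meets _ _ h.1 _ (ht.trans hr))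
    obtain ⟨h3, h4⟩ := (meets_gen hz).1 (down_meets _ _ h.2 _ (ht.trans hr))
    refine ⟨t, ht, (meets_gen hz).2 ⟨h1.trans h3, ?_⟩⟩
    rw [← t.1.nt.coh x.1 y.1 z.1 z.2 h1 h3 (Set.mem_Iic.2 hz), h4, h2]
  · refine fimp_of fun q _ h => ?_
    obtain ⟨r, hr, s, hs, hrs⟩ := h q le_rfl
    exact hs.1
  · refine mem_fex.2 fun q _ => ?_
    obtain ⟨t, ht, hh⟩ := exists_ht y.1 q
    exact ⟨t, ht, t.1.π α y.1 y.2, (meets_gen hh).2 ⟨hα, rfl⟩⟩
  · refine mem_fimp.2 fun q _ h => ?_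
    obtain ⟨t, ht, hh⟩ := exists_ht y.1 q
    have h1 := (meets_gen hh).1 (down_meets _ _ h.1 _ ht)
    have h2 := (meets_gen hh).1 (down_meets _ _ h.2 _ ht)
    refine ⟨t, ht, ?_⟩
    have h3 : t.1.π α y.1 y.2 = n := h1.2
    have h4 : t.1.π α y.1 y.2 = n' := h2.2
    exact h3.symm.trans h4
  · refine mem_fex.2 fun q _ => ?_
    obtain ⟨t, ht, hh⟩ := exists_ht β q
    obtain ⟨m, hm1, hm2⟩ := (t.1.nt.inf x.1 β x.2 hβ (Set.mem_Iic.2 hh)).exists_gt N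
    exact ⟨t, ht, m, hm2.le, (meets_gen hh).2 ⟨hβ.le, hm1⟩⟩
  · refine mem_fimp.2 fun q _ hf => ?_
    by_contra hcon
    push Not at hcon
    -- below `q` no condition forces the conclusion
    have hno : ∀ r ≤ q, ∀ a b x y, a ≠ b → r ∈ meets (f a x) → r ∈ meets (f b y) →
        r ∉ meets (gen μ x y) := by
      intro r hr a b x y hab h1 h2 h3
      apply hcon r hr
      refine mem_fex.2 fun r1 hr1 => ⟨r1, le_rfl, a, mem_fex.2 fun r2 hr2 => ⟨r2, le_rfl, b, hab,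
        mem_fex.2 fun r3 hr3 => ⟨r3, le_rfl, x, mem_fex.2 fun r4 hr4 => ⟨r4, le_rfl, y, ?_⟩⟩⟩⟩
      have hle : r4 ≤ r := hr4.trans (hr3.trans (hr2.trans hr1))
      exact ⟨⟨down_meets _ _ h1 _ hle, down_meets _ _ h2 _ hle⟩, down_meets _ _ h3 _ hle⟩
    exact antichain f q hf hno

end Pool.Agent.H686R2.Dow.Seal
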