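import Pool.Agent.H686R2.Dow.Top
import Pool.Agent.Helper996.DowkerTop
import Pool.Agent.Helper996.DowkerCore

/-! The topology given by the neighbourhoods. -/

set_option autoImplicit false
set_option linter.unusedSectionVars false
set_option linter.style.haveILetI false

open Set Topology

namespace Pool.Agent.H686R2.Dow.Top

variable {W : Type} [LinearOrder W] [WellFoundedLT W] (D : Data W)

/-- the topology -/
@[implicit_reducible] def tp : TopologicalSpace (W × ℕ) where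
  IsOpen U := ∀ x ∈ U, ∃ k, V D x k ⊆ U
  isOpen_univ := fun _ _ => ⟨0, subset_univ _⟩
  isOpen_inter := by
    intro s t hs ht x hx
    obtain ⟨k, hk⟩ := hs x hx.1
    obtain ⟨l, hl⟩ := ht x hx.2
    exact ⟨max k l, fun w hw => ⟨hk ((good x).basic.mono (le_max_left k l) hw),
      hl ((good x).basic.mono (le_max_right k l) hw)⟩⟩
  isOpen_sUnion := by
    intro S hS x hx
    obtain ⟨t, ht, hxt⟩ := hx
    obtain ⟨k, hk⟩ := hS t ht x hxt
    exact ⟨k, fun w hw => ⟨t, ht, hk hw⟩⟩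

theorem isOpen_iff (U : Set (W × ℕ)) : IsOpen[tp D] U ↔ ∀ x ∈ U, ∃ k, V D x k ⊆ U := Iff.rfl

theorem isOpen_V (x : W × ℕ) (k : ℕ) : IsOpen[tp D] (V D x k) :=
  (good x).basic.opn k

theorem isClosed_V (x : W × ℕ) (k : ℕ) : IsClosed[tp D] (V D x k) := by
  letI := tp D
  rw [← isOpen_compl_iff]
  intro w hw
  have key : ∃ j, Disjoint (V D w j) (V D x k) := by
    rcases lx_tri w x with h1 | h1 | h1
    · exact (good x).d1 w h1 k hw
    · subst h1
      exact absurd ((good w).basic.self k) hw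
    · exact (good w).d2 x h1 k hw
  obtain ⟨j, hj⟩ := key
  exact ⟨j, fun u hu hu' => Set.disjoint_left.1 hj hu hu'⟩

theorem nhds_basis (x : W × ℕ) :
    (@nhds _ (tp D) x).HasBasis (fun _ : ℕ => True) (V D x) := by
  letI := tp D
  refine ⟨fun t => ?_⟩
  rw [mem_nhds_iff]
  constructor
  · rintro ⟨U, hU, hUo, hxU⟩
    obtain ⟨k, hk⟩ := hUo x hxU
    exact ⟨k, trivial, hk.trans hU⟩
  · rintro ⟨k, -, hk⟩
    exact ⟨V D x k, hk, isOpen_V D x k, (good x).basic.self k⟩

theorem regular : @RegularSpace _ (tp D) := by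
  letI := tp D
  exact RegularSpace.of_hasBasis (fun x => nhds_basis D x) (fun x k _ => isClosed_V D x k)

theorem firstCountable : @FirstCountableTopology _ (tp D) := by
  letI := tp D
  exact ⟨fun x => (nhds_basis D x).isCountablyGenerated⟩

theorem t2 : @T2Space _ (tp D) := by
  letI := tp D
  have key : ∀ x y : W × ℕ, lx x y → ∃ u v : Set (W × ℕ), IsOpen u ∧ IsOpen v ∧ x ∈ u ∧ y ∈ v ∧
      Disjoint u v := by
    intro x y h
    have hx : ∃ k, x ∉ V D y k := by
      rcases h with h | ⟨h, h'⟩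
      · obtain ⟨j, hj⟩ := (good (D := D) y).basic.above h
        refine ⟨j, fun hx => ?_⟩
        rcases hj j le_rfl x hx with h1 | h1
        · rw [h1] at h; exact lt_irrefl _ h
        · exact lt_irrefl _ h1
      · refine ⟨0, fun hx => ?_⟩
        rcases (good (D := D) y).basic.low 0 x hx with h1 | h1
        · rw [h1] at h'; exact lt_irrefl _ h'
        · rw [h] at h1; exact lt_irrefl _ h1
    obtain ⟨k, hk⟩ := hx
    exact ⟨(V D y k)ᶜ, V D y k, (isClosed_V D y k).isOpen_compl, isOpen_V D y k, hk,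
      (good y).basic.self k, disjoint_compl_left⟩
  refine ⟨fun x y hxy => ?_⟩
  rcases lx_tri x y with h | h | h
  · exact key x y h
  · exact absurd h hxy
  · obtain ⟨u, v, h1, h2, h3, h4, h5⟩ := key y x h
    exact ⟨v, u, h2, h1, h4, h3, h5.symm⟩

theorem isClopen_init (α : W) : @IsClopen _ (tp D) {y | y.1 ≤ α} := by
  letI := tp D
  constructor
  · rw [← isOpen_compl_iff]
    intro y hy
    have hy' : α < y.1 := not_le.1 hy
    obtain ⟨j, hj⟩ := (good (D := D) y).basic.above hy'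
    refine ⟨j, fun w hw => ?_⟩
    rcases hj j le_rfl w hw with h1 | h1
    · rw [h1]; exact hy
    · exact not_le.2 h1
  · intro y hy
    refine ⟨0, fun w hw => ?_⟩
    rcases (good (D := D) y).basic.low 0 w hw with h1 | h1
    · rw [h1]; exact hy
    · exact h1.le.trans hy

theorem lev_le {lev : W × ℕ → ℕ} (hlev : ∀ x, ∀ y ∈ D.H x, lev y < lev x) (x : W × ℕ) :
    ∀ k, ∀ w ∈ V D x k, lev w ≤ lev x := by
  refine lx_wf.induction (C := fun x => ∀ k, ∀ w ∈ V D x k, lev w ≤ lev x) x ?_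
  intro x ih k w hw
  rcases (mem_V D).1 hw with h | ⟨z, hz, -, hwz⟩
  · rw [h]
  · exact (ih z (Or.inl (D.H_lt x z hz)) _ w hwz).trans (hlev x z hz).le

theorem mem_of_closed {x : W × ℕ} (hL : D.L x.1) {A : Set (W × ℕ)} (hA : IsClosed[tp D] A)
    (h : ∀ α < x.1, ∃ z ∈ D.H x ∩ A, α < z.1) : x ∈ A := by
  letI := tp D
  by_contra hx
  obtain ⟨k, hk⟩ := hA.isOpen_compl x hx
  obtain ⟨z, ⟨hz, hzA⟩, hcz⟩ := h (D.c x.1 k) (D.c_lt x.1 hL k)
  exact hk ((mem_V D).2 (Or.inr ⟨z, hz, hcz, (good z).basic.self _⟩)) hzA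

theorem conclude (lev : W × ℕ → ℕ) (hlev : ∀ x, ∀ y ∈ D.H x, lev y < lev x)
    (hc : ∀ a : W, (Set.Iio a).Countable) (hu : ¬ (Set.univ : Set W).Countable)
    (key : ∀ A C : Set (W × ℕ), ¬ A.Countable → ¬ C.Countable → ∀ n, ∃ x, D.L x.1 ∧ n ≤ lev x ∧
      (∀ α < x.1, ∃ z ∈ D.H x ∩ A, α < z.1) ∧ (∀ α < x.1, ∃ z ∈ D.H x ∩ C, α < z.1)) :
    @T2Space _ (tp D) ∧ @NormalSpace _ (tp D) ∧
      ¬ @Pool.Agent.Helper996.Dowker.CountablyParacompact _ (tp D) ∧
      @FirstCountableTopology _ (tp D) ∧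
      (∀ x, ∃ U, IsOpen[tp D] U ∧ x ∈ U ∧ U.Countable) := by
  letI := tp D
  haveI := regular D
  have hIic : ∀ a : W, ({y | y.1 ≤ a} : Set (W × ℕ)).Countable := by
    intro a
    have h1 : (Set.Iic a).Countable := by
      rw [← Set.Iio_insert]
      exact (hc a).insert a
    refine (h1.prod (Set.countable_univ (α := ℕ))).mono ?_
    intro y hy
    exact ⟨hy, trivial⟩
  have hu' : ¬ (Set.univ : Set (W × ℕ)).Countable := by
    intro h
    apply hu
    have := h.image Prod.fst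
    refine this.mono ?_
    intro a _
    exact ⟨(a, 0), trivial, rfl⟩
  obtain ⟨h1, E, hE1, hE2, hE3, hE4⟩ := Pool.Agent.Helper996.Dowker.finish (X := W × ℕ) lev (by
    intro n x hx
    exact ⟨0, fun w hw => (lev_le D hlev x 0 w hw).trans_lt hx⟩) (by
    intro A hA
    obtain ⟨d, hd⟩ := Pool.Agent.Helper996.Dowker.countable_bdd hc hu (hA.image Prod.fst)
    refine ⟨{y | y.1 ≤ d}, isClopen_init D d, hIic d, ?_⟩
    intro y hy
    exact (hd y.1 ⟨y, hy, rfl⟩).le) hu' (by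
    intro A C hA hC hAu hCu n
    obtain ⟨x, hL, hn, h1, h2⟩ := key A C hAu hCu n
    exact ⟨x, ⟨mem_of_closed D hL hA h1, mem_of_closed D hL hC h2⟩, hn⟩)
  refine ⟨t2 D, h1, Pool.Agent.Helper996.Dowker.not_cp E hE1 hE2 hE3 hE4, firstCountable D, ?_⟩
  intro x
  exact ⟨{y | y.1 ≤ x.1}, (isClopen_init D x.1).isOpen, le_rfl, hIic x.1⟩

end Pool.Agent.H686R2.Dow.Top
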