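import Mathlib

/-!
# A first countable, locally countable, zero-dimensional topology from closed discrete systems

The set of points is `W × ℕ`. The point `x` is a limit of the set `H x` of points of smaller level.
-/

set_option autoImplicit false
set_option linter.unusedSectionVars false

open Set

namespace Pool.Agent.H686R2.Dow.Top

/-- the data -/
structure Data (W : Type) [LinearOrder W] where
  /-- the set which converges to `x` -/
  H : W × ℕ → Set (W × ℕ)
  /-- the limit levels -/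
  L : W → Prop
  /-- cofinal sequences -/
  c : W → ℕ → W
  /-- enumeration of the predecessors -/
  e : W × ℕ → W × ℕ → ℕ
  /-- closed discrete sets -/
  A : W → ℕ → Set (W × ℕ)
  H_lt : ∀ x, ∀ y ∈ H x, y.1 < x.1
  H_empty : ∀ x, ¬ L x.1 → H x = ∅
  c_mono : ∀ δ, Monotone (c δ)
  c_lt : ∀ δ, L δ → ∀ k, c δ k < δ
  c_cof : ∀ δ, L δ → ∀ α < δ, ∃ k, α ≤ c δ k
  e_inj : ∀ x p q, (p.1 < x.1 ∨ (p.1 = x.1 ∧ p.2 < x.2)) → (q.1 < x.1 ∨ (q.1 = x.1 ∧ q.2 < x.2)) →
    e x p = e x q → p = q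
  A_lt : ∀ δ l, ∀ y ∈ A δ l, y.1 < δ
  A_trace : ∀ δ l, ∀ β < δ, ∃ l', A β l' = A δ l ∩ {y | y.1 < β}
  H_trace : ∀ x, ∀ β < x.1, ∃ l, A β l = H x ∩ {y | y.1 < β}
  A_bdd : ∀ δ, L δ → ∀ l m, ∃ k, ∀ y ∈ A δ l ∩ H (δ, m), y.1 ≤ c δ k
  H_bdd : ∀ δ, L δ → ∀ m m', m ≠ m' → ∃ k, ∀ y ∈ H (δ, m) ∩ H (δ, m'), y.1 ≤ c δ k

section

variable {W : Type} [LinearOrder W] [WellFoundedLT W]

/-- the lexicographic order -/
def lx (p q : W × ℕ) : Prop := p.1 < q.1 ∨ (p.1 = q.1 ∧ p.2 < q.2)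

theorem lx_wf : WellFounded (lx (W := W)) := by
  have h := WellFounded.prod_lex (wellFounded_lt (α := W)) (wellFounded_lt (α := ℕ))
  refine Subrelation.wf (r := Prod.Lex (· < ·) (· < ·)) ?_ h
  rintro ⟨a, m⟩ ⟨b, n⟩ (h | ⟨h1, h2⟩)
  · exact Prod.Lex.left _ _ h
  · dsimp only at h1 h2
    subst h1
    exact Prod.Lex.right _ h2

theorem lx_tri (p q : W × ℕ) : lx p q ∨ p = q ∨ lx q p := by
  rcases lt_trichotomy p.1 q.1 with h | h | h
  · exact Or.inl (Or.inl h)
  · rcases lt_trichotomy p.2 q.2 with h' | h' | h'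
    · exact Or.inl (Or.inr ⟨h, h'⟩)
    · exact Or.inr (Or.inl (Prod.ext h h'))
    · exact Or.inr (Or.inr (Or.inr ⟨h.symm, h'⟩))
  · exact Or.inr (Or.inr (Or.inl h))

variable (D : Data W)

/-- the requirements on the index of the neighbourhood of `z` used for `x` -/
def Req (V : W × ℕ → ℕ → Set (W × ℕ)) (x z : W × ℕ) (j : ℕ) : Prop :=
  (∀ p, lx p x → D.e x p ≤ D.e x z → ∀ k ≤ D.e x z, z ∉ V p k → Disjoint (V z j) (V p k)) ∧
  (∀ l ≤ D.e x z, V z j ∩ D.A x.1 l ⊆ {z}) ∧
  (∀ m ≤ D.e x z, V z j ∩ D.H (x.1, m) ⊆ {z}) ∧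
  (∀ k, D.c x.1 k < z.1 → ∀ w ∈ V z j, D.c x.1 k < w.1)

open Classical in
/-- the chosen index -/
noncomputable def J (V : W × ℕ → ℕ → Set (W × ℕ)) (x z : W × ℕ) : ℕ := sInf {j | Req D V x z j}

/-- the next step -/
noncomputable def body (V : W × ℕ → ℕ → Set (W × ℕ)) (x : W × ℕ) (k : ℕ) : Set (W × ℕ) :=
  {x} ∪ ⋃ z ∈ {z | z ∈ D.H x ∧ D.c x.1 k < z.1}, V z (J D V x z)

open Classical in
/-- restriction of an assignment to the predecessors of `x` -/
noncomputable def restr (x : W × ℕ) (V : (y : W × ℕ) → lx y x → ℕ → Set (W × ℕ)) :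
    W × ℕ → ℕ → Set (W × ℕ) := fun y k => if h : lx y x then V y h k else ∅

/-- the neighbourhoods -/
noncomputable def V : W × ℕ → ℕ → Set (W × ℕ) :=
  lx_wf.fix fun x V' k => body D (restr x V') x k

theorem V_eq' (x : W × ℕ) (k : ℕ) :
    V D x k = body D (restr x fun y _ => V D y) x k := by
  unfold V
  rw [WellFounded.fix_eq]

theorem restr_of_lx {x y : W × ℕ} (h : lx y x) : (restr x fun y _ => V D y) y = V D y := by
  funext k
  exact dif_pos h

theorem req_congr {x z : W × ℕ} (hz : lx z x) (j : ℕ) :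
    Req D (restr x fun y _ => V D y) x z j ↔ Req D (V D) x z j := by
  unfold Req
  rw [restr_of_lx D hz]
  refine and_congr ?_ Iff.rfl
  refine forall_congr' fun p => ?_
  refine forall_congr' fun hp => ?_
  rw [restr_of_lx D hp]

theorem J_congr {x z : W × ℕ} (hz : lx z x) :
    J D (restr x fun y _ => V D y) x z = J D (V D) x z := by
  unfold J
  congr 1
  ext j
  exact req_congr D hz j

theorem mem_V {x : W × ℕ} {k : ℕ} {w : W × ℕ} : w ∈ V D x k ↔
    w = x ∨ ∃ z, z ∈ D.H x ∧ D.c x.1 k < z.1 ∧ w ∈ V D z (J D (V D) x z) := by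
  rw [V_eq']
  unfold body
  simp only [mem_union, mem_singleton_iff, mem_iUnion]
  refine or_congr Iff.rfl ?_
  constructor
  · rintro ⟨z, ⟨hz1, hz2⟩, hw⟩
    have hlx : lx z x := Or.inl (D.H_lt x z hz1)
    rw [restr_of_lx D hlx, J_congr D hlx] at hw
    exact ⟨z, hz1, hz2, hw⟩
  · rintro ⟨z, hz1, hz2, hw⟩
    have hlx : lx z x := Or.inl (D.H_lt x z hz1)
    refine ⟨z, ⟨hz1, hz2⟩, ?_⟩
    rw [restr_of_lx D hlx, J_congr D hlx]
    exact hw

/-- the basic properties of the neighbourhoods of `y` -/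
structure Basic (y : W × ℕ) : Prop where
  mono : Antitone (V D y)
  self : ∀ k, y ∈ V D y k
  low : ∀ k, ∀ w ∈ V D y k, w = y ∨ w.1 < y.1
  high : ∀ k, ∀ w ∈ V D y k, w = y ∨ D.c y.1 k < w.1
  isol : ¬ D.L y.1 → ∀ k, V D y k = {y}
  opn : ∀ k, ∀ w ∈ V D y k, ∃ j, V D w j ⊆ V D y k
  avoidA : ∀ l, ∃ j, V D y j ∩ D.A y.1 l = ∅
  avoidH : ∀ m, m ≠ y.2 → ∃ j, V D y j ∩ D.H (y.1, m) = ∅

/-- everything at the stage `x` -/
structure Good (x : W × ℕ) : Prop where
  basic : Basic D x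
  d1 : ∀ w, lx w x → ∀ k, w ∉ V D x k → ∃ j, Disjoint (V D w j) (V D x k)
  d2 : ∀ w, lx w x → ∀ k, x ∉ V D w k → ∃ j, Disjoint (V D x j) (V D w k)

variable {D}

theorem Basic.above {y : W × ℕ} (h : Basic D y) {α : W} (hα : α < y.1) :
    ∃ j, ∀ i, j ≤ i → ∀ w ∈ V D y i, w = y ∨ α < w.1 := by
  by_cases hL : D.L y.1
  · obtain ⟨j, hj⟩ := D.c_cof y.1 hL α hα
    refine ⟨j, fun i hi w hw => ?_⟩
    rcases h.high i w hw with h1 | h1
    · exact Or.inl h1
    · exact Or.inr ((hj.trans (D.c_mono _ hi)).trans_lt h1)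
  · refine ⟨0, fun i _ w hw => ?_⟩
    rw [h.isol hL i] at hw
    exact Or.inl hw

/-- finitely many eventual requirements -/
theorem exists_unif {ι : Type} (s : Set ι) (hs : s.Finite) (P : ι → ℕ → Prop)
    (hP : ∀ i ∈ s, ∃ j, ∀ j', j ≤ j' → P i j') : ∃ j, ∀ j', j ≤ j' → ∀ i ∈ s, P i j' := by
  classical
  choose! g hg using hP
  obtain ⟨M, hM⟩ := (hs.image g).bddAbove
  exact ⟨M, fun j' hj' i hi => hg i hi j' ((hM ⟨i, hi, rfl⟩).trans hj')⟩

theorem finite_small (x : W × ℕ) (N : ℕ) : {p | lx p x ∧ D.e x p ≤ N}.Finite := by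
  refine Set.Finite.of_finite_image (f := D.e x) ((Set.finite_Iic N).subset ?_) ?_
  · rintro _ ⟨p, hp, rfl⟩
    exact hp.2
  · intro p hp q hq hpq
    exact D.e_inj x p q hp.1 hq.1 hpq

/-- disjointness for two points of the previous stages -/
theorem dd {x : W × ℕ} (ih : ∀ y, lx y x → Good D y) {z p : W × ℕ} (hz : lx z x) (hp : lx p x)
    {k : ℕ} (h : z ∉ V D p k) : ∃ j, ∀ j', j ≤ j' → Disjoint (V D z j') (V D p k) := by
  have key : ∃ j, Disjoint (V D z j) (V D p k) := by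
    rcases lx_tri z p with h1 | h1 | h1
    · exact (ih p hp).d1 z h1 k h
    · subst h1
      exact absurd ((ih z hz).basic.self k) h
    · exact (ih z hz).d2 p h1 k h
  obtain ⟨j, hj⟩ := key
  exact ⟨j, fun j' hj' => hj.mono_left ((ih z hz).basic.mono hj')⟩

/-- the requirements can be met -/
theorem req_J {x : W × ℕ} (ih : ∀ y, lx y x → Good D y) {z : W × ℕ} (hz : z ∈ D.H x) :
    Req D (V D) x z (J D (V D) x z) := by
  have hzx : z.1 < x.1 := D.H_lt x z hz
  have hlx : lx z x := Or.inl hzx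
  have hL : D.L x.1 := by
    by_contra h
    rw [D.H_empty x h] at hz
    exact hz
  have gz := (ih z hlx).basic
  refine Nat.sInf_mem (s := {j | Req D (V D) x z j}) ?_
  set i := D.e x z
  -- first requirement
  obtain ⟨j1, hj1⟩ := exists_unif ({p | lx p x ∧ D.e x p ≤ i} ×ˢ Set.Iic i)
    ((finite_small x i).prod (Set.finite_Iic i))
    (fun q j => z ∉ V D q.1 q.2 → Disjoint (V D z j) (V D q.1 q.2)) (by
      rintro ⟨p, k⟩ ⟨⟨hp, -⟩, -⟩
      by_cases h : z ∈ V D p k
      · exact ⟨0, fun _ _ h' => absurd h h'⟩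
      · obtain ⟨j, hj⟩ := dd ih hlx hp h
        exact ⟨j, fun j' hj' _ => hj j' hj'⟩)
  -- second
  obtain ⟨j2, hj2⟩ := exists_unif (Set.Iic i) (Set.finite_Iic i)
    (fun l j => V D z j ∩ D.A x.1 l ⊆ {z}) (by
      intro l _
      obtain ⟨l', hl'⟩ := D.A_trace x.1 l z.1 hzx
      obtain ⟨j, hj⟩ := gz.avoidA l'
      refine ⟨j, fun j' hj' w hw => ?_⟩
      rcases gz.low j' w hw.1 with h | h
      · exact h
      · exfalso
        have : w ∈ V D z j ∩ D.A z.1 l' := by
          rw [hl']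
          exact ⟨gz.mono hj' hw.1, hw.2, h⟩
        rw [hj] at this
        exact this)
  -- third
  obtain ⟨j3, hj3⟩ := exists_unif (Set.Iic i) (Set.finite_Iic i)
    (fun m j => V D z j ∩ D.H (x.1, m) ⊆ {z}) (by
      intro m _
      obtain ⟨l', hl'⟩ := D.H_trace (x.1, m) z.1 hzx
      obtain ⟨j, hj⟩ := gz.avoidA l'
      refine ⟨j, fun j' hj' w hw => ?_⟩
      rcases gz.low j' w hw.1 with h | h
      · exact h
      · exfalso
        have : w ∈ V D z j ∩ D.A z.1 l' := by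
          rw [hl']
          exact ⟨gz.mono hj' hw.1, hw.2, h⟩
        rw [hj] at this
        exact this)
  -- fourth
  have h4 : ∃ j4, ∀ j', j4 ≤ j' → ∀ k, D.c x.1 k < z.1 → ∀ w ∈ V D z j', D.c x.1 k < w.1 := by
    obtain ⟨κ, hκ⟩ := D.c_cof x.1 hL z.1 hzx
    obtain ⟨j, hj⟩ := exists_unif (Set.Iio κ) (Set.finite_Iio κ)
      (fun k j => D.c x.1 k < z.1 → ∀ w ∈ V D z j, D.c x.1 k < w.1) (by
        intro k _
        by_cases h : D.c x.1 k < z.1
        · obtain ⟨j, hj⟩ := gz.above h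
          refine ⟨j, fun j' hj' _ w hw => ?_⟩
          rcases hj j' hj' w hw with h1 | h1
          · rw [h1]; exact h
          · exact h1
        · exact ⟨0, fun _ _ h' => absurd h' h⟩)
    refine ⟨j, fun j' hj' k hk w hw => ?_⟩
    by_cases hkκ : k < κ
    · exact hj j' hj' k hkκ hk w hw
    · exact absurd (hκ.trans (D.c_mono x.1 (not_lt.1 hkκ))) (not_le.2 hk)
  obtain ⟨j4, hj4⟩ := h4
  refine ⟨max (max j1 j2) (max j3 j4), ?_, ?_, ?_, ?_⟩
  · intro p hp hpi k hk h
    exact hj1 _ ((le_max_left _ _).trans (le_max_left _ _)) (p, k) ⟨⟨hp, hpi⟩, hk⟩ h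
  · intro l hl
    exact hj2 _ ((le_max_right _ _).trans (le_max_left _ _)) l hl
  · intro m hm
    exact hj3 _ ((le_max_left _ _).trans (le_max_right _ _)) m hm
  · exact hj4 _ ((le_max_right _ _).trans (le_max_right _ _))

theorem basic_step {x : W × ℕ} (ih : ∀ y, lx y x → Good D y) : Basic D x := by
  have hself : ∀ k, x ∈ V D x k := fun k => (mem_V D).2 (Or.inl rfl)
  have hlow : ∀ k, ∀ w ∈ V D x k, w = x ∨ w.1 < x.1 := by
    intro k w hw
    rcases (mem_V D).1 hw with h | ⟨z, hz, -, hwz⟩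
    · exact Or.inl h
    · right
      have hzx := D.H_lt x z hz
      rcases (ih z (Or.inl hzx)).basic.low _ w hwz with h | h
      · rw [h]; exact hzx
      · exact h.trans hzx
  have avoid : ∀ (S : Set (W × ℕ)) (N : ℕ), x ∉ S → (D.L x.1 → ∃ k, ∀ y ∈ S ∩ D.H x, y.1 ≤ D.c x.1 k) →
      (∀ z ∈ D.H x, N ≤ D.e x z → V D z (J D (V D) x z) ∩ S ⊆ {z}) → ∃ j, V D x j ∩ S = ∅ := by
    intro S N hxS hb hS
    by_cases hL : D.L x.1
    · obtain ⟨k0, hk0⟩ := hb hL
      obtain ⟨k1, hk1⟩ := exists_unif {z | z ∈ D.H x ∧ D.e x z ≤ N}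
        ((finite_small (D := D) x N).subset fun z hz => ⟨Or.inl (D.H_lt x z hz.1), hz.2⟩)
        (fun z j => z.1 ≤ D.c x.1 j) (by
          rintro z ⟨hz, -⟩
          obtain ⟨k, hk⟩ := D.c_cof x.1 hL z.1 (D.H_lt x z hz)
          exact ⟨k, fun j' hj' => hk.trans (D.c_mono _ hj')⟩)
      refine ⟨max k0 k1, ?_⟩
      rw [Set.eq_empty_iff_forall_notMem]
      rintro w ⟨hw, hwS⟩
      rcases (mem_V D).1 hw with h | ⟨z, hz, hcz, hwz⟩
      · exact hxS (h ▸ hwS)
      · by_cases hN : D.e x z ≤ N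
        · exact absurd (hk1 _ (le_max_right _ _) z ⟨hz, hN⟩) (not_le.2 hcz)
        · have h1 : w = z := hS z hz (not_le.1 hN).le ⟨hwz, hwS⟩
          have h2 := hk0 w ⟨hwS, h1 ▸ hz⟩
          rw [h1] at h2
          exact absurd (h2.trans (D.c_mono _ (le_max_left k0 k1))) (not_le.2 hcz)
    · refine ⟨0, ?_⟩
      rw [Set.eq_empty_iff_forall_notMem]
      rintro w ⟨hw, hwS⟩
      rcases (mem_V D).1 hw with h | ⟨z, hz, -⟩
      · exact hxS (h ▸ hwS)
      · rw [D.H_empty x hL] at hz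
        exact hz
  refine ⟨?_, hself, hlow, ?_, ?_, ?_, ?_, ?_⟩
  · intro i j hij w hw
    rcases (mem_V D).1 hw with h | ⟨z, hz, hcz, hwz⟩
    · rw [h]; exact hself i
    · exact (mem_V D).2 (Or.inr ⟨z, hz, (D.c_mono x.1 hij).trans_lt hcz, hwz⟩)
  · intro k w hw
    rcases (mem_V D).1 hw with h | ⟨z, hz, hcz, hwz⟩
    · exact Or.inl h
    · exact Or.inr ((req_J ih hz).2.2.2 k hcz w hwz)
  · intro hL k
    ext w
    rw [mem_V, D.H_empty x hL]
    simp
  · intro k w hw
    rcases (mem_V D).1 hw with h | ⟨z, hz, hcz, hwz⟩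
    · rw [h]; exact ⟨k, Subset.rfl⟩
    · obtain ⟨j, hj⟩ := (ih z (Or.inl (D.H_lt x z hz))).basic.opn _ w hwz
      exact ⟨j, fun u hu => (mem_V D).2 (Or.inr ⟨z, hz, hcz, hj hu⟩)⟩
  · intro l
    refine avoid (D.A x.1 l) l (fun h => lt_irrefl _ (D.A_lt x.1 l x h)) (fun hL => ?_) ?_
    · obtain ⟨k, hk⟩ := D.A_bdd x.1 hL l x.2
      exact ⟨k, hk⟩
    · intro z hz hN
      exact (req_J ih hz).2.1 l hN
  · intro m hm
    refine avoid (D.H (x.1, m)) m (fun h => lt_irrefl _ (D.H_lt (x.1, m) x h)) (fun hL => ?_) ?_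
    · obtain ⟨k, hk⟩ := D.H_bdd x.1 hL m x.2 hm
      exact ⟨k, hk⟩
    · intro z hz hN
      exact (req_J ih hz).2.2.1 m hN

theorem good (x : W × ℕ) : Good D x := by
  refine lx_wf.induction (C := fun x => Good D x) x ?_
  intro x ih
  have bx := basic_step ih
  refine ⟨bx, ?_, ?_⟩
  · -- `w` earlier than `x`, separate `w` from `V x k`
    intro w hwx k hw
    have bw := (ih w hwx).basic
    have hwx' : w ≠ x := by
      rintro rfl
      exact hw (bx.self k)
    -- a neighbourhood of `w` which meets `H x` at most in `w`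
    have hj1 : ∃ j1, V D w j1 ∩ D.H x ⊆ {w} := by
      rcases hwx with h | ⟨h, h'⟩
      · obtain ⟨l, hl⟩ := D.H_trace x w.1 h
        obtain ⟨j, hj⟩ := bw.avoidA l
        refine ⟨j, fun u hu => ?_⟩
        rcases bw.low j u hu.1 with h1 | h1
        · exact h1
        · exfalso
          have : u ∈ V D w j ∩ D.A w.1 l := by
            rw [hl]
            exact ⟨hu.1, hu.2, h1⟩
          rw [hj] at this
          exact this
      · obtain ⟨j, hj⟩ := bw.avoidH x.2 h'.ne'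
        refine ⟨j, ?_⟩
        have : D.H (w.1, x.2) = D.H x := by rw [h]
        rw [← this, hj]
        exact Set.empty_subset _
    obtain ⟨j1, hj1⟩ := hj1
    set N := max (D.e x w) j1
    have hwz : ∀ z, z ∈ D.H x → D.c x.1 k < z.1 → w ∉ V D z (J D (V D) x z) := fun z hz hcz h =>
      hw ((mem_V D).2 (Or.inr ⟨z, hz, hcz, h⟩))
    obtain ⟨j2, hj2⟩ := exists_unif {z | (z ∈ D.H x ∧ D.c x.1 k < z.1) ∧ D.e x z ≤ N}
      ((finite_small (D := D) x N).subset fun z hz => ⟨Or.inl (D.H_lt x z hz.1.1), hz.2⟩)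
      (fun z j => Disjoint (V D w j) (V D z (J D (V D) x z))) (by
        rintro z ⟨⟨hz, hcz⟩, -⟩
        exact dd ih hwx (Or.inl (D.H_lt x z hz)) (hwz z hz hcz))
    refine ⟨max j1 j2, ?_⟩
    rw [Set.disjoint_left]
    intro u hu hux
    rcases (mem_V D).1 hux with h | ⟨z, hz, hcz, huz⟩
    · -- `x ∈ V w _`
      rw [h] at hu
      rcases bw.low _ x hu with h1 | h1
      · exact hwx' h1.symm
      · rcases hwx with h2 | ⟨h2, -⟩
        · exact lt_asymm h1 h2
        · rw [h2] at h1; exact lt_irrefl _ h1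
    · by_cases hN : D.e x z ≤ N
      · exact Set.disjoint_left.1 (hj2 _ (le_max_right _ _) z ⟨⟨hz, hcz⟩, hN⟩) hu huz
      · have hN' := not_le.1 hN
        have h1 : z ∉ V D w j1 := by
          intro h
          have h2 : z = w := hj1 ⟨h, hz⟩
          exact hwz z hz hcz (h2 ▸ (ih z (Or.inl (D.H_lt x z hz))).basic.self _)
        have h3 := (req_J ih hz).1 w hwx ((le_max_left _ _).trans hN'.le) j1
          ((le_max_right _ _).trans hN'.le) h1
        exact Set.disjoint_left.1 h3 huz (bw.mono (le_max_left _ _) hu)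
  · -- separate `x` from `V w k`
    intro w hwx k _
    have bw := (ih w hwx).basic
    rcases hwx with h | ⟨h, h'⟩
    · obtain ⟨j, hj⟩ := bx.above h
      refine ⟨j, ?_⟩
      rw [Set.disjoint_left]
      intro u hu huw
      have h1 : u.1 ≤ w.1 := by
        rcases bw.low k u huw with h2 | h2
        · rw [h2]
        · exact h2.le
      rcases hj j le_rfl u hu with h2 | h2
      · rw [h2] at h1; exact absurd h (not_lt.2 h1)
      · exact absurd h2 (not_lt.2 h1)
    · obtain ⟨l, hl⟩ := bw.avoidH x.2 h'.ne'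
      have hH : D.H (w.1, x.2) = D.H x := by rw [h]
      rw [hH] at hl
      have hwx : lx w x := Or.inr ⟨h, h'⟩
      by_cases hL : D.L x.1
      · set N := max (D.e x w) k
        have hbd : ∀ z ∈ D.H x, D.c x.1 l < z.1 → z ∉ V D w k := by
          intro z hz hcz hzw
          rcases (mem_V D).1 hzw with h1 | ⟨y, hy, hcy, hzy⟩
          · rw [h1, h] at hcz
            have := D.H_lt x z hz
            rw [h1, h] at this
            exact lt_irrefl _ this
          · have h2 : y.1 ≤ D.c w.1 l := by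
              by_contra h3
              have : z ∈ V D w l ∩ D.H x :=
                ⟨(mem_V D).2 (Or.inr ⟨y, hy, not_le.1 h3, hzy⟩), hz⟩
              rw [hl] at this
              exact this
            have h3 : z.1 ≤ y.1 := by
              rcases (ih y (Or.inl ((D.H_lt w y hy).trans_eq h))).basic.low _ z hzy with h4 | h4
              · rw [h4]
              · exact h4.le
            rw [h] at h2
            exact absurd (h3.trans h2) (not_le.2 hcz)
        obtain ⟨j2, hj2⟩ := exists_unif {z | z ∈ D.H x ∧ D.e x z ≤ N}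
          ((finite_small (D := D) x N).subset fun z hz => ⟨Or.inl (D.H_lt x z hz.1), hz.2⟩)
          (fun z j => z.1 ≤ D.c x.1 j) (by
            rintro z ⟨hz, -⟩
            obtain ⟨k, hk⟩ := D.c_cof x.1 hL z.1 (D.H_lt x z hz)
            exact ⟨k, fun j' hj' => hk.trans (D.c_mono _ hj')⟩)
        refine ⟨max l j2, ?_⟩
        rw [Set.disjoint_left]
        intro u hu huw
        rcases (mem_V D).1 hu with h1 | ⟨z, hz, hcz, huz⟩
        · rw [h1] at huw
          rcases bw.low k x huw with h2 | h2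
          · rw [h2] at h'; exact lt_irrefl _ h'
          · rw [h] at h2; exact lt_irrefl _ h2
        · by_cases hN : D.e x z ≤ N
          · exact absurd (hj2 _ (le_max_right _ _) z ⟨hz, hN⟩) (not_le.2 hcz)
          · have hN' := not_le.1 hN
            have h1 := hbd z hz ((D.c_mono x.1 (le_max_left _ _)).trans_lt hcz)
            have h3 := (req_J ih hz).1 w hwx ((le_max_left _ _).trans hN'.le) k
              ((le_max_right _ _).trans hN'.le) h1
            exact Set.disjoint_left.1 h3 huz huw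
      · refine ⟨0, ?_⟩
        rw [bx.isol hL 0, Set.disjoint_singleton_left]
        intro hx
        rcases bw.low k x hx with h2 | h2
        · rw [h2] at h'; exact lt_irrefl _ h'
        · rw [h] at h2; exact lt_irrefl _ h2

end

end Pool.Agent.H686R2.Dow.Top
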