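import Pool.Agent.H686R2.Dow.Branch
import Pool.Agent.H686R2.Dow.Space

/-! A Souslin tree gives the data for the Dowker space. -/

set_option autoImplicit false

open Set Topology

namespace Pool.Agent.H686R2.Dow.Tree

open WO Pool.Agent.H686R2.Dow.Top

variable {W : Type} [LinearOrder W]

/-- the tree order -/
def Le (π : W → W → ℕ → ℕ) (x y : W × ℕ) : Prop := x.1 ≤ y.1 ∧ π x.1 y.1 y.2 = x.2

/-- every antichain is countable -/
def Souslin (π : W → W → ℕ → ℕ) : Prop :=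
  ∀ S : Set (W × ℕ), (∀ x ∈ S, ∀ y ∈ S, x ≠ y → ¬ Le π x y) → S.Countable

variable {π : W → W → ℕ → ℕ}

theorem Le.trans (T : NT Set.univ π) {x y z : W × ℕ} (h : Le π x y) (h' : Le π y z) : Le π x z := by
  refine ⟨h.1.trans h'.1, ?_⟩
  rw [← T.coh x.1 y.1 z.1 z.2 h.1 h'.1 trivial, h'.2, h.2]

theorem Le.refl (T : NT Set.univ π) (x : W × ℕ) : Le π x x := ⟨le_rfl, T.refl _ trivial _⟩

theorem Le.total (T : NT Set.univ π) {x y z : W × ℕ} (h : Le π x z) (h' : Le π y z)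
    (hxy : x.1 ≤ y.1) : Le π x y := by
  refine ⟨hxy, ?_⟩
  rw [← h'.2, T.coh x.1 y.1 z.1 z.2 hxy h'.1 trivial, h.2]

/-- everything about the choices -/
structure Ch (W : Type) [LinearOrder W] (π : W → W → ℕ → ℕ) where
  /-- cofinal sequences -/
  c : W → ℕ → W
  /-- enumeration of the nodes below -/
  g : W → ℕ → W × ℕ
  /-- injections -/
  e : W × ℕ → W × ℕ → ℕ
  /-- branches -/
  F : W → ℕ → W → ℕ
  c_mono : ∀ δ, Monotone (c δ)
  c_lt : ∀ δ, Lim δ → ∀ k, c δ k < δ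
  c_cof : ∀ δ, Lim δ → ∀ α < δ, ∃ k, α ≤ c δ k
  g_lt : ∀ δ, Lim δ → ∀ k, (g δ k).1 < δ
  g_sur : ∀ δ, Lim δ → ∀ x : W × ℕ, x.1 < δ → ∃ k, g δ k = x
  e_inj : ∀ x p q, (p.1 < x.1 ∨ (p.1 = x.1 ∧ p.2 < x.2)) → (q.1 < x.1 ∨ (q.1 = x.1 ∧ q.2 < x.2)) →
    e x p = e x q → p = q
  F_coh : ∀ δ, Lim δ → ∀ t, ∀ α β, α ≤ β → β < δ → π α β (F δ t β) = F δ t α
  F_node : ∀ δ, Lim δ → ∀ t j, ∃ α < δ, F δ t α ≠ π α δ j
  F_ne : ∀ δ, Lim δ → ∀ t t', t ≠ t' → ∃ α < δ, F δ t α ≠ F δ t' α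
  F_start0 : ∀ δ, Lim δ → ∀ m : ℕ, F δ (Nat.pair m 0) (g δ m.unpair.1.unpair.1).1 =
    (g δ m.unpair.1.unpair.1).2
  F_start1 : ∀ δ, Lim δ → ∀ m : ℕ, F δ (Nat.pair m 1) (g δ m.unpair.1.unpair.2).1 =
    (g δ m.unpair.1.unpair.2).2

theorem exists_ch (hc : ∀ a : W, (Set.Iio a).Countable) (T : NT Set.univ π) :
    Nonempty (Ch W π) := by
  classical
  have hcof := fun δ => exists_cof hc δ
  choose c hc1 hc2 using hcof
  have hg : ∀ δ : W, ∃ g : ℕ → W × ℕ, Lim δ → (∀ k, (g k).1 < δ) ∧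
      ∀ x : W × ℕ, x.1 < δ → ∃ k, g k = x := by
    intro δ
    by_cases h : Lim δ
    · obtain ⟨α, hα⟩ := h.1
      obtain ⟨z, hz⟩ := (countable_lt hc δ).exists_eq_range ⟨(α, 0), hα⟩
      refine ⟨z, fun _ => ⟨fun k => ?_, fun x hx => ?_⟩⟩
      · have : z k ∈ {y : W × ℕ | y.1 < δ} := by rw [hz]; exact ⟨k, rfl⟩
        exact this
      · have : x ∈ Set.range z := by rw [← hz]; exact hx
        exact this
    · exact ⟨fun _ => (δ, 0), fun h' => absurd h' h⟩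
  choose g hg using hg
  have he : ∀ x : W × ℕ, ∃ e : W × ℕ → ℕ, Set.InjOn e {p | lx p x} := by
    intro x
    have h1 : ({p | lx p x} : Set (W × ℕ)).Countable := by
      refine (countable_le hc x.1).mono ?_
      rintro p (h | ⟨h, -⟩)
      · exact h.le
      · exact h.le
    exact Set.countable_iff_exists_injOn.1 h1
  choose e he using he
  have hF : ∀ δ : W, ∃ F : ℕ → W → ℕ, Lim δ → (∀ t, Br (Set.Iio δ) π (F t)) ∧
      (∀ t, F t (if t.unpair.2 = 0 then g δ t.unpair.1.unpair.1.unpair.1 else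
        g δ t.unpair.1.unpair.1.unpair.2).1 = (if t.unpair.2 = 0 then
          g δ t.unpair.1.unpair.1.unpair.1 else g δ t.unpair.1.unpair.1.unpair.2).2) ∧
      (∀ t j, ∃ α < δ, F t α ≠ π α δ j) ∧ (∀ t t', t ≠ t' → ∃ α < δ, F t α ≠ F t' α) := by
    intro δ
    by_cases h : Lim δ
    · obtain ⟨F, h1⟩ := exists_branches hc h (T.mono (Set.subset_univ _)) (fun j α => π α δ j)
        (fun t => if t.unpair.2 = 0 then g δ t.unpair.1.unpair.1.unpair.1 else
          g δ t.unpair.1.unpair.1.unpair.2) (by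
          intro t
          split_ifs
          · exact (hg δ h).1 _
          · exact (hg δ h).1 _)
      exact ⟨F, fun _ => h1⟩
    · exact ⟨fun _ _ => 0, fun h' => absurd h' h⟩
  choose F hF using hF
  refine ⟨⟨c, g, e, F, hc1, fun δ h => (hc2 δ h).1, fun δ h => (hc2 δ h).2, fun δ h => (hg δ h).1,
    fun δ h => (hg δ h).2, ?_, ?_, ?_, ?_, ?_, ?_⟩⟩
  · intro x p q hp hq h
    exact he x hp hq h
  · intro δ h t α β h1 h2
    exact ((hF δ h).1 t).coh α β h1 h2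
  · intro δ h t j
    exact (hF δ h).2.2.1 t j
  · intro δ h t t' htt'
    exact (hF δ h).2.2.2 t t' htt'
  · intro δ h m
    have := (hF δ h).2.1 (Nat.pair m 0)
    simpa using this
  · intro δ h m
    have := (hF δ h).2.1 (Nat.pair m 1)
    simpa using this

/-- the levels -/
def lev (x : W × ℕ) : ℕ := x.2.unpair.2

/-- the sets -/
def H (C : Ch W π) (x : W × ℕ) : Set (W × ℕ) :=
  {y | Lim x.1 ∧ y.1 < x.1 ∧ (y.2 = C.F x.1 (Nat.pair x.2 0) y.1 ∨
    y.2 = C.F x.1 (Nat.pair x.2 1) y.1) ∧ lev y < lev x}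

/-- the closed discrete sets -/
def A (π : W → W → ℕ → ℕ) (δ : W) (l : ℕ) : Set (W × ℕ) :=
  {y | y.1 < δ ∧ (y.2 = π y.1 δ l.unpair.1.unpair.1 ∨ y.2 = π y.1 δ l.unpair.1.unpair.2) ∧
    lev y < l.unpair.2}

/-- two coherent functions which differ somewhere differ from then on -/
theorem differ (f f' : W → ℕ) {δ : W} (hf : ∀ α β, α ≤ β → β < δ → π α β (f β) = f α)
    (hf' : ∀ α β, α ≤ β → β < δ → π α β (f' β) = f' α) {α : W} (hα : f α ≠ f' α) {β : W}
    (hαβ : α ≤ β) (hβ : β < δ) : f β ≠ f' β := by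
  intro h
  apply hα
  rw [← hf α β hαβ hβ, ← hf' α β hαβ hβ, h]

/-- two differing branches meet boundedly -/
theorem bddc (C : Ch W π) (f f' : W → ℕ) {δ : W} (hδ : Lim δ)
    (hf : ∀ α β, α ≤ β → β < δ → π α β (f β) = f α)
    (hf' : ∀ α β, α ≤ β → β < δ → π α β (f' β) = f' α) (h : ∃ α < δ, f α ≠ f' α) :
    ∃ k, ∀ β < δ, f β = f' β → β ≤ C.c δ k := by
  obtain ⟨α, hα, h1⟩ := h
  obtain ⟨k, hk⟩ := C.c_cof δ hδ α hα
  refine ⟨k, fun β hβ h2 => ?_⟩
  rcases le_total α β with h3 | h3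
  · exact absurd h2 (differ f f' hf hf' h1 h3 hβ)
  · exact h3.trans hk

theorem bddc4 (C : Ch W π) {ι : Type} [Finite ι] (f f' : ι → W → ℕ) {δ : W} (hδ : Lim δ)
    (hf : ∀ i, ∀ α β, α ≤ β → β < δ → π α β (f i β) = f i α)
    (hf' : ∀ i, ∀ α β, α ≤ β → β < δ → π α β (f' i β) = f' i α)
    (h : ∀ i j, ∃ α < δ, f i α ≠ f' j α) :
    ∃ k, ∀ i j, ∀ β < δ, f i β = f' j β → β ≤ C.c δ k := by
  have h1 : ∀ p : ι × ι, ∃ k, ∀ β < δ, f p.1 β = f' p.2 β → β ≤ C.c δ k := fun p =>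
    bddc C (f p.1) (f' p.2) hδ (hf p.1) (hf' p.2) (h p.1 p.2)
  choose K hK using h1
  obtain ⟨M, hM⟩ := (Set.finite_range K).bddAbove
  exact ⟨M, fun i j β hβ hij => (hK (i, j) β hβ hij).trans (C.c_mono δ (hM ⟨(i, j), rfl⟩))⟩

/-- the data for the topology -/
def data (C : Ch W π) (T : NT Set.univ π) : Data W where
  H := H C
  L := Lim
  c := C.c
  e := C.e
  A := A π
  H_lt := fun x y hy => hy.2.1
  H_empty := fun x hx => by
    ext y
    simp only [H, Set.mem_ofPred_eq, Set.mem_empty_iff_false, iff_false]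
    exact fun h => hx h.1
  c_mono := C.c_mono
  c_lt := C.c_lt
  c_cof := C.c_cof
  e_inj := C.e_inj
  A_lt := fun δ l y hy => hy.1
  A_trace := by
    intro δ l β hβ
    refine ⟨Nat.pair (Nat.pair (π β δ l.unpair.1.unpair.1) (π β δ l.unpair.1.unpair.2)) l.unpair.2, ?_⟩
    ext y
    simp only [A, Nat.unpair_pair, Set.mem_ofPred_eq, Set.mem_inter_iff]
    constructor
    · rintro ⟨h1, h2, h3⟩
      rw [T.coh _ _ _ _ h1.le hβ.le trivial, T.coh _ _ _ _ h1.le hβ.le trivial] at h2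
      exact ⟨⟨h1.trans hβ, h2, h3⟩, h1⟩
    · rintro ⟨⟨h1, h2, h3⟩, h4⟩
      refine ⟨h4, ?_, h3⟩
      rw [T.coh _ _ _ _ h4.le hβ.le trivial, T.coh _ _ _ _ h4.le hβ.le trivial]
      exact h2
  H_trace := by
    intro x β hβ
    by_cases hL : Lim x.1
    · refine ⟨Nat.pair (Nat.pair (C.F x.1 (Nat.pair x.2 0) β) (C.F x.1 (Nat.pair x.2 1) β)) (lev x), ?_⟩
      ext y
      simp only [A, H, Nat.unpair_pair, Set.mem_ofPred_eq, Set.mem_inter_iff]
      constructor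
      · rintro ⟨h1, h2, h3⟩
        rw [C.F_coh x.1 hL _ _ _ h1.le hβ, C.F_coh x.1 hL _ _ _ h1.le hβ] at h2
        exact ⟨⟨hL, h1.trans hβ, h2, h3⟩, h1⟩
      · rintro ⟨⟨-, h1, h2, h3⟩, h4⟩
        refine ⟨h4, ?_, h3⟩
        rw [C.F_coh x.1 hL _ _ _ h4.le hβ, C.F_coh x.1 hL _ _ _ h4.le hβ]
        exact h2
    · refine ⟨Nat.pair 0 0, ?_⟩
      ext y
      simp only [A, H, Nat.unpair_pair, Set.mem_ofPred_eq, Set.mem_inter_iff]
      constructor
      · rintro ⟨-, -, h3⟩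
        omega
      · rintro ⟨⟨h1, -⟩, -⟩
        exact absurd h1 hL
  A_bdd := by
    intro δ hδ l m
    obtain ⟨k, hk⟩ := bddc4 C (ι := Bool)
      (fun i α => if i then C.F δ (Nat.pair m 1) α else C.F δ (Nat.pair m 0) α)
      (fun j α => if j then π α δ l.unpair.1.unpair.2 else π α δ l.unpair.1.unpair.1) hδ
      (by
        intro i α β h1 h2
        cases i
        · exact C.F_coh δ hδ _ _ _ h1 h2
        · exact C.F_coh δ hδ _ _ _ h1 h2)
      (by
        intro i α β h1 h2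
        cases i
        · exact T.coh _ _ _ _ h1 h2.le trivial
        · exact T.coh _ _ _ _ h1 h2.le trivial)
      (by
        intro i j
        cases i <;> cases j <;> exact C.F_node δ hδ _ _)
    refine ⟨k, ?_⟩
    rintro y ⟨⟨h1, h2, -⟩, ⟨-, -, h3, -⟩⟩
    dsimp only at h3
    rcases h2 with h2 | h2 <;> rcases h3 with h3 | h3
    · exact hk false false y.1 h1 (by simp only [Bool.false_eq_true, if_false]; rw [← h3, ← h2])
    · exact hk true false y.1 h1 (by simp only [Bool.false_eq_true, if_false, if_true]; rw [← h3, ← h2])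
    · exact hk false true y.1 h1 (by simp only [Bool.false_eq_true, if_false, if_true]; rw [← h3, ← h2])
    · exact hk true true y.1 h1 (by simp only [if_true]; rw [← h3, ← h2])
  H_bdd := by
    intro δ hδ m m' hmm'
    obtain ⟨k, hk⟩ := bddc4 C (ι := Bool)
      (fun i α => if i then C.F δ (Nat.pair m 1) α else C.F δ (Nat.pair m 0) α)
      (fun i α => if i then C.F δ (Nat.pair m' 1) α else C.F δ (Nat.pair m' 0) α) hδ
      (by
        intro i α β h1 h2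
        cases i
        · exact C.F_coh δ hδ _ _ _ h1 h2
        · exact C.F_coh δ hδ _ _ _ h1 h2)
      (by
        intro i α β h1 h2
        cases i
        · exact C.F_coh δ hδ _ _ _ h1 h2
        · exact C.F_coh δ hδ _ _ _ h1 h2)
      (by
        have key : ∀ a b, Nat.pair m a ≠ Nat.pair m' b := by
          intro a b h
          exact hmm' (Nat.pair_eq_pair.1 h).1
        intro i j
        cases i <;> cases j <;> exact C.F_ne δ hδ _ _ (key _ _))
    refine ⟨k, ?_⟩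
    rintro y ⟨⟨-, h1, h2, -⟩, ⟨-, -, h3, -⟩⟩
    dsimp only at h2 h3
    rcases h2 with h2 | h2 <;> rcases h3 with h3 | h3
    · exact hk false false y.1 h1 (by simp only [Bool.false_eq_true, if_false]; rw [← h3, ← h2])
    · exact hk false true y.1 h1 (by simp only [Bool.false_eq_true, if_false, if_true]; rw [← h3, ← h2])
    · exact hk true false y.1 h1 (by simp only [Bool.false_eq_true, if_false, if_true]; rw [← h3, ← h2])
    · exact hk true true y.1 h1 (by simp only [if_true]; rw [← h3, ← h2])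

/-- above some node `A` is unboundedly dense -/
theorem dense_above (hc : ∀ a : W, (Set.Iio a).Countable) (hu : ¬ (Set.univ : Set W).Countable)
    (T : NT Set.univ π) (hS : Souslin π) {A : Set (W × ℕ)} (hA : ¬ A.Countable) :
    ∃ s : W × ℕ, ∀ t, Le π s t → ∀ γ, ∃ a ∈ A, Le π t a ∧ γ < a.1 := by
  classical
  by_contra hcon
  push Not at hcon
  -- the bad nodes
  set B : Set (W × ℕ) := {t | ∃ γ, ∀ a ∈ A, Le π t a → a.1 ≤ γ} with hB
  have hBd : ∀ s, ∃ t, Le π s t ∧ t ∈ B := by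
    intro s
    obtain ⟨t, h1, γ, h2⟩ := hcon s
    exact ⟨t, h1, γ, h2⟩
  obtain ⟨M, hM⟩ := zorn_subset {S : Set (W × ℕ) | S ⊆ B ∧ ∀ x ∈ S, ∀ y ∈ S, x ≠ y → ¬ Le π x y} (by
    intro c hcs hch
    refine ⟨⋃₀ c, ⟨Set.sUnion_subset fun s hs => (hcs hs).1, ?_⟩, fun s hs => Set.subset_sUnion_of_mem hs⟩
    rintro x ⟨s, hs, hxs⟩ y ⟨t, ht, hyt⟩ hxy
    rcases hch.total hs ht with h | h
    · exact (hcs ht).2 x (h hxs) y hyt hxy
    · exact (hcs hs).2 x hxs y (h hyt) hxy)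
  obtain ⟨⟨hMB, hMa⟩, hMm⟩ := hM
  have hMc : M.Countable := hS M hMa
  have hγ : ∀ t : W × ℕ, ∃ γ, t ∈ B → ∀ a ∈ A, Le π t a → a.1 ≤ γ := by
    intro t
    by_cases h : t ∈ B
    · obtain ⟨γ, hγ⟩ := h
      exact ⟨γ, fun _ => hγ⟩
    · exact ⟨t.1, fun h' => absurd h' h⟩
  choose γ hγ using hγ
  obtain ⟨d, hd⟩ := bdd hc hu ((hMc.image γ).union (hMc.image Prod.fst))
  apply hA
  refine (countable_le hc d).mono ?_
  intro a ha
  by_contra hda
  have hda : d < a.1 := not_le.1 hda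
  obtain ⟨b, hab, hb⟩ := hBd a
  -- `b` is comparable with a member of `M`
  have hcomp : ∃ t ∈ M, Le π t b ∨ Le π b t := by
    by_contra hno
    push Not at hno
    have hbM : b ∉ M := fun h => (hno b h).1 (Le.refl T b)
    have h1 : insert b M ⊆ M := hMm (y := insert b M) ⟨Set.insert_subset hb hMB, by
      intro x hx y hy hxy
      rcases hx with rfl | hx
      · rcases hy with rfl | hy
        · exact absurd rfl hxy
        · exact (hno y hy).2
      · rcases hy with rfl | hy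
        · exact (hno x hx).1
        · exact hMa x hx y hy hxy⟩ (Set.subset_insert b M)
    exact hbM (h1 (Set.mem_insert b M))
  obtain ⟨t, htM, ht⟩ := hcomp
  have ht1 : t.1 < d := hd _ (Or.inr ⟨t, htM, rfl⟩)
  have ht2 : Le π t b := by
    rcases ht with h | h
    · exact h
    · exact absurd (hab.1.trans h.1) (not_le.2 (ht1.trans hda))
  have h3 : Le π t a := Le.total T ht2 hab (ht1.trans hda).le
  have h4 := hγ t (hMB htM) a ha h3
  exact absurd (h4.trans (hd _ (Or.inl ⟨t, htM, rfl⟩)).le) (not_le.2 hda)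

/-- each branch meets `A` soon -/
theorem bound_fn (hc : ∀ a : W, (Set.Iio a).Countable) (hu : ¬ (Set.univ : Set W).Countable)
    (T : NT Set.univ π) (hS : Souslin π) {A : Set (W × ℕ)} {s : W × ℕ}
    (hA : ∀ t, Le π s t → ∀ γ, ∃ a ∈ A, Le π t a ∧ γ < a.1) (γ : W) :
    ∃ g : W, ∀ t, Le π s t → g < t.1 → ∃ a ∈ A, Le π a t ∧ γ < a.1 := by
  classical
  obtain ⟨M, hM⟩ := zorn_subset {S : Set (W × ℕ) | S ⊆ {a | a ∈ A ∧ γ < a.1} ∧
    ∀ x ∈ S, ∀ y ∈ S, x ≠ y → ¬ Le π x y} (by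
    intro c hcs hch
    refine ⟨⋃₀ c, ⟨Set.sUnion_subset fun s hs => (hcs hs).1, ?_⟩, fun s hs => Set.subset_sUnion_of_mem hs⟩
    rintro x ⟨s, hs, hxs⟩ y ⟨t, ht, hyt⟩ hxy
    rcases hch.total hs ht with h | h
    · exact (hcs ht).2 x (h hxs) y hyt hxy
    · exact (hcs hs).2 x hxs y (h hyt) hxy)
  obtain ⟨⟨hMB, hMa⟩, hMm⟩ := hM
  have hMc : M.Countable := hS M hMa
  obtain ⟨d, hd⟩ := bdd hc hu (hMc.image Prod.fst)
  refine ⟨d, fun t hst hdt => ?_⟩
  obtain ⟨a, haA, hta, hγa⟩ := hA t hst γ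
  have hcomp : ∃ b ∈ M, Le π b a ∨ Le π a b := by
    by_contra hno
    push Not at hno
    have hbM : a ∉ M := fun h => (hno a h).1 (Le.refl T a)
    have h1 : insert a M ⊆ M := hMm (y := insert a M) ⟨Set.insert_subset ⟨haA, hγa⟩ hMB, by
      intro x hx y hy hxy
      rcases hx with rfl | hx
      · rcases hy with rfl | hy
        · exact absurd rfl hxy
        · exact (hno y hy).2
      · rcases hy with rfl | hy
        · exact (hno x hx).1
        · exact hMa x hx y hy hxy⟩ (Set.subset_insert a M)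
    exact hbM (h1 (Set.mem_insert a M))
  obtain ⟨b, hbM, hb⟩ := hcomp
  have hb1 : b.1 < d := hd _ ⟨b, hbM, rfl⟩
  have hb2 : Le π b a := by
    rcases hb with h | h
    · exact h
    · exact absurd (hta.1.trans h.1) (not_le.2 (hb1.trans hdt))
  exact ⟨b, (hMB hbM).1, Le.total T hb2 hta (hb1.trans hdt).le, (hMB hbM).2⟩

theorem key [WellFoundedLT W] (hc : ∀ a : W, (Set.Iio a).Countable)
    (hu : ¬ (Set.univ : Set W).Countable)
    (T : NT Set.univ π) (hS : Souslin π) (C : Ch W π) (A B : Set (W × ℕ)) (hA : ¬ A.Countable)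
    (hB : ¬ B.Countable) (n : ℕ) : ∃ x : W × ℕ, Lim x.1 ∧ n ≤ lev x ∧
      (∀ α < x.1, ∃ z ∈ H C x ∩ A, α < z.1) ∧ (∀ α < x.1, ∃ z ∈ H C x ∩ B, α < z.1) := by
  have hlev : ∀ A : Set (W × ℕ), ¬ A.Countable → ∃ l, ¬ (A ∩ {y | lev y = l}).Countable := by
    intro A hA
    by_contra hcon
    push Not at hcon
    apply hA
    refine (Set.countable_iUnion hcon).mono ?_
    intro y hy
    exact Set.mem_iUnion.2 ⟨lev y, hy, rfl⟩
  obtain ⟨lA, hlA⟩ := hlev A hA
  obtain ⟨lB, hlB⟩ := hlev B hB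
  obtain ⟨sA, hsA⟩ := dense_above hc hu T hS hlA
  obtain ⟨sB, hsB⟩ := dense_above hc hu T hS hlB
  have hgA := fun γ => bound_fn hc hu T hS hsA γ
  have hgB := fun γ => bound_fn hc hu T hS hsB γ
  choose gA hgA using hgA
  choose gB hgB using hgB
  have hstep : ∀ x : W, ∃ y : W, x < y ∧ gA x < y ∧ gB x < y := by
    intro x
    obtain ⟨d, hd⟩ := bdd hc hu (C := {x, gA x, gB x})
      (((Set.countable_singleton _).insert _).insert _)
    exact ⟨d, hd _ (by simp), hd _ (by simp), hd _ (by simp)⟩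
  choose nx hnx using hstep
  let γ : ℕ → W := fun k => Nat.rec (max sA.1 sB.1) (fun _ x => nx x) k
  have hγs : ∀ k, γ (k + 1) = nx (γ k) := fun _ => rfl
  obtain ⟨δ, hδ1, hδ2⟩ := exists_sup hc hu γ
  have hγ1 : ∀ k, γ k < γ (k + 1) := fun k => by rw [hγs]; exact (hnx _).1
  have hL : Lim δ := by
    refine ⟨⟨γ 0, hδ1 0⟩, fun α hα => ?_⟩
    obtain ⟨k, hk⟩ := hδ2 α hα
    exact ⟨γ (k + 1), hk.trans_lt (hγ1 k), hδ1 (k + 1)⟩
  have hA0 : sA.1 < δ := (le_max_left _ _).trans_lt (hδ1 0)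
  have hB0 : sB.1 < δ := (le_max_right _ _).trans_lt (hδ1 0)
  obtain ⟨a, ha⟩ := C.g_sur δ hL sA hA0
  obtain ⟨b, hb⟩ := C.g_sur δ hL sB hB0
  set n' := max n (max (lA + 1) (lB + 1)) with hn'
  set m := Nat.pair (Nat.pair a b) n' with hm
  have gen : ∀ (A : Set (W × ℕ)) (l : ℕ) (s : W × ℕ) (g : W → W) (f : W → ℕ),
      (∀ γ, ∀ t, Le π s t → g γ < t.1 → ∃ a ∈ A ∩ {y | lev y = l}, Le π a t ∧ γ < a.1) →
      s.1 ≤ γ 0 → l < n' → (∀ k, g (γ k) < γ (k + 1)) → f s.1 = s.2 →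
      (∀ α β, α ≤ β → β < δ → π α β (f β) = f α) →
      (∀ y : W × ℕ, y.1 < δ → y.2 = f y.1 → lev y < n' → y ∈ H C (δ, m)) →
      ∀ α < δ, ∃ z ∈ H C (δ, m) ∩ A, α < z.1 := by
    intro A l s g f h1 h2 h3 h4 h5 h6 h7 α hα
    obtain ⟨k, hk⟩ := hδ2 α hα
    have hsk : s.1 ≤ γ (k + 1) := h2.trans (monotone_nat_of_le_succ (fun k => (hγ1 k).le) (Nat.zero_le (k + 1)))
    have hst : Le π s (γ (k + 1), f (γ (k + 1))) := by
      refine ⟨hsk, ?_⟩
      show π s.1 (γ (k + 1)) (f (γ (k + 1))) = s.2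
      rw [h6 _ _ hsk (hδ1 (k + 1)), h5]
    obtain ⟨z, ⟨hzA, hzl⟩, hzt, hγz⟩ := h1 (γ k) _ hst (h4 k)
    have hz1 : z.1 ≤ γ (k + 1) := hzt.1
    have hz2 : z.2 = f z.1 := by
      rw [← hzt.2]
      exact h6 _ _ hz1 (hδ1 (k + 1))
    have hzl' : lev z = l := hzl
    exact ⟨z, ⟨h7 z (hz1.trans_lt (hδ1 (k + 1))) hz2 (hzl' ▸ h3), hzA⟩, hk.trans_lt hγz⟩
  have hn : lev ((δ, m) : W × ℕ) = n' := by
    simp [lev, hm]
  refine ⟨(δ, m), hL, ?_, ?_, ?_⟩
  · rw [hn]; exact le_max_left _ _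
  · refine gen A lA sA gA (C.F δ (Nat.pair m 0)) hgA (le_max_left _ _) ?_ ?_ ?_ ?_ ?_
    · exact (Nat.lt_succ_self lA).trans_le ((le_max_left _ _).trans (le_max_right _ _))
    · intro k; rw [hγs]; exact (hnx _).2.1
    · have := C.F_start0 δ hL m
      rw [hm] at this ⊢
      simp only [Nat.unpair_pair] at this
      rw [ha] at this
      exact this
    · exact fun α β h1 h2 => C.F_coh δ hL _ α β h1 h2
    · intro y h1 h2 h3
      exact ⟨hL, h1, Or.inl h2, by rw [hn]; exact h3⟩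
  · refine gen B lB sB gB (C.F δ (Nat.pair m 1)) hgB (le_max_right _ _) ?_ ?_ ?_ ?_ ?_
    · exact (Nat.lt_succ_self lB).trans_le ((le_max_right _ _).trans (le_max_right _ _))
    · intro k; rw [hγs]; exact (hnx _).2.2
    · have := C.F_start1 δ hL m
      rw [hm] at this ⊢
      simp only [Nat.unpair_pair] at this
      rw [hb] at this
      exact this
    · exact fun α β h1 h2 => C.F_coh δ hL _ α β h1 h2
    · intro y h1 h2 h3
      exact ⟨hL, h1, Or.inr h2, by rw [hn]; exact h3⟩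

/-- A Souslin tree gives a first countable, locally countable Dowker space on `W × ℕ`. -/
theorem dowker [WellFoundedLT W] (hc : ∀ a : W, (Set.Iio a).Countable)
    (hu : ¬ (Set.univ : Set W).Countable)
    (T : NT Set.univ π) (hS : Souslin π) :
    ∃ τ : TopologicalSpace (W × ℕ), @T2Space _ τ ∧ @NormalSpace _ τ ∧
      ¬ @Pool.Agent.Helper996.Dowker.CountablyParacompact _ τ ∧
      @FirstCountableTopology _ τ ∧
      (∀ x, ∃ U, IsOpen[τ] U ∧ x ∈ U ∧ U.Countable) := by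
  obtain ⟨C⟩ := exists_ch hc T
  refine ⟨tp (data C T), conclude (data C T) lev ?_ hc hu ?_⟩
  · intro x y hy
    exact hy.2.2.2
  · intro A B hA hB n
    exact key hc hu T hS C A B hA hB n

end Pool.Agent.H686R2.Dow.Tree
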