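import Mathlib
import Pool.Agent.Helper996.DowkerCore

/-! Well orders of type `ω₁`. -/

set_option autoImplicit false

open Set

namespace Pool.Agent.H686R2.Dow.WO

variable {W : Type} [LinearOrder W]

/-- limit elements -/
def Lim (δ : W) : Prop := (∃ α, α < δ) ∧ ∀ α < δ, ∃ β, α < β ∧ β < δ

theorem bdd (hc : ∀ a : W, (Set.Iio a).Countable) (hu : ¬ (Set.univ : Set W).Countable)
    {C : Set W} (hC : C.Countable) : ∃ d : W, ∀ c ∈ C, c < d :=
  Pool.Agent.Helper996.Dowker.countable_bdd hc hu hC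

theorem countable_Iic (hc : ∀ a : W, (Set.Iio a).Countable) (a : W) : (Set.Iic a).Countable := by
  rw [← Set.Iio_insert]
  exact (hc a).insert a

theorem countable_le (hc : ∀ a : W, (Set.Iio a).Countable) (a : W) :
    ({y | y.1 ≤ a} : Set (W × ℕ)).Countable := by
  refine ((countable_Iic hc a).prod (Set.countable_univ (α := ℕ))).mono ?_
  intro y hy
  exact ⟨hy, trivial⟩

theorem countable_lt (hc : ∀ a : W, (Set.Iio a).Countable) (a : W) :
    ({y | y.1 < a} : Set (W × ℕ)).Countable :=
  (countable_le hc a).mono fun _ h => le_of_lt h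

theorem exists_sup [WellFoundedLT W] (hc : ∀ a : W, (Set.Iio a).Countable)
    (hu : ¬ (Set.univ : Set W).Countable) (γ : ℕ → W) :
    ∃ δ, (∀ n, γ n < δ) ∧ ∀ α < δ, ∃ n, α ≤ γ n := by
  obtain ⟨d, hd⟩ := bdd hc hu (Set.countable_range γ)
  have hne : ({a | ∀ n, γ n < a} : Set W).Nonempty := ⟨d, fun n => hd _ ⟨n, rfl⟩⟩
  refine ⟨WellFounded.min (wellFounded_lt (α := W)) _ hne,
    WellFounded.min_mem (wellFounded_lt (α := W)) _ hne, fun α hα => ?_⟩
  by_contra hcon
  push Not at hcon
  exact WellFounded.not_lt_min (wellFounded_lt (α := W)) (s := {a | ∀ n, γ n < a}) hcon hα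

theorem exists_cof (hc : ∀ a : W, (Set.Iio a).Countable) (δ : W) : ∃ c : ℕ → W, Monotone c ∧
    (Lim δ → (∀ k, c k < δ) ∧ ∀ α < δ, ∃ k, α ≤ c k) := by
  by_cases h : Lim δ
  · obtain ⟨z, hz⟩ := (hc δ).exists_eq_range h.1
    have hne : ∀ n : ℕ, (Finset.range (n+1)).Nonempty := fun n => Finset.nonempty_range_add_one
    refine ⟨fun n => (Finset.range (n+1)).sup' (hne n) z, ?_, fun _ => ⟨?_, ?_⟩⟩
    · intro m n hmn
      refine Finset.sup'_mono z ?_ _
      intro i hi
      rw [Finset.mem_range] at hi ⊢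
      omega
    · intro k
      refine (Finset.sup'_lt_iff (hne k)).2 ?_
      intro i _
      have : z i ∈ Set.Iio δ := by rw [hz]; exact ⟨i, rfl⟩
      exact this
    · intro α hα
      have : α ∈ Set.range z := by rw [← hz]; exact hα
      obtain ⟨n, rfl⟩ := this
      exact ⟨n, Finset.le_sup' z (by simp)⟩
  · exact ⟨fun _ => δ, fun _ _ _ => le_rfl, fun h' => absurd h' h⟩

/-- distinct representatives of infinite sets -/
theorem sdr {β : Type} (S : ℕ → Set β) (h : ∀ t, (S t).Infinite) :
    ∃ F : ℕ → β, (∀ t, F t ∈ S t) ∧ Function.Injective F := by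
  classical
  have h1 : ∀ t, ∃ u : Finset β, (u : Set β) ⊆ S t ∧ u.card = t + 1 := fun t =>
    (h t).exists_subset_card_eq (t + 1)
  choose u hu hcard using h1
  have h2 : ∀ s : Finset ℕ, s.card ≤ (s.biUnion u).card := by
    intro s
    rcases s.eq_empty_or_nonempty with hs | hs
    · simp [hs]
    · have h3 : s ⊆ Finset.range (s.max' hs + 1) := by
        intro i hi
        rw [Finset.mem_range]
        exact Nat.lt_succ_of_le (s.le_max' i hi)
      have h4 := Finset.card_le_card h3
      rw [Finset.card_range] at h4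
      refine h4.trans ?_
      rw [← hcard (s.max' hs)]
      exact Finset.card_le_card (Finset.subset_biUnion_of_mem u (s.max'_mem hs))
  obtain ⟨F, hF1, hF2⟩ := (Finset.all_card_le_biUnion_card_iff_exists_injective u).1 h2
  exact ⟨F, fun t => hu t (hF2 t), hF1⟩

end Pool.Agent.H686R2.Dow.WO
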